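import Mathlib

/-!
Networks, relaxed networks and the energies of the reinforcement problem in the plane.
-/

set_option autoImplicit false
open MeasureTheory Set Topology Filter
open scoped ENNReal ContDiff

namespace Pool.Agent.V11111.RN

/-- The Euclidean plane. -/
abbrev Plane := EuclideanSpace ℝ (Fin 2)

/-- The class of networks: closed connected subsets of `Ω` of one-dimensional Hausdorff measure at
most `L`. -/
def Network (Ω : Set Plane) (L : ℝ) : Set (Set Plane) :=
  {S | IsClosed S ∧ IsConnected S ∧ S ⊆ Ω ∧ μH[1] S ≤ ENNReal.ofReal L}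

/-- The class of relaxed networks: the finite measures on the closure of `Ω` in the weak* closure
(tested on finitely many continuous functions at a time) of the restrictions of the
one-dimensional Hausdorff measure to networks. -/
def Relaxed (Ω : Set Plane) (L : ℝ) : Set (Measure Plane) :=
  {μ | IsFiniteMeasure μ ∧ μ (closure Ω)ᶜ = 0 ∧
    ∀ (k : ℕ) (φ : Fin k → Plane → ℝ), (∀ i, Continuous (φ i)) → ∀ ε : ℝ, 0 < ε →
      ∃ S ∈ Network Ω L, ∀ i, |(∫ x in S, φ i x ∂μH[1]) - ∫ x, φ i x ∂μ| < ε}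

/-- Smooth functions with compact support contained in `Ω`. -/
def Test (Ω : Set Plane) : Set (Plane → ℝ) :=
  {u | ContDiff ℝ ∞ u ∧ HasCompactSupport u ∧ tsupport u ⊆ Ω}

/-- The functional which is minimised over the displacement `u`; the load is `f₁ - f₂`. -/
noncomputable def functional (Ω : Set Plane) (m : ℝ) (f₁ f₂ μ : Measure Plane)
    (u : Plane → ℝ) : ℝ :=
  (1 / 2) * (∫ x in Ω, ‖fderiv ℝ u x‖ ^ 2) + (m / 2) * (∫ x in Ω, ‖fderiv ℝ u x‖ ^ 2 ∂μ)
    - ((∫ x, u x ∂f₁) - ∫ x, u x ∂f₂)

/-- The energy of the measure `μ` for the load `f₁ - f₂` and the stiffness `m`. -/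
noncomputable def energy (Ω : Set Plane) (m : ℝ) (f₁ f₂ μ : Measure Plane) : EReal :=
  ⨅ u ∈ Test Ω, ((functional Ω m f₁ f₂ μ u : ℝ) : EReal)

end Pool.Agent.V11111.RN
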