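import Pool.Agent.V11111.RN.Base

/-!
Combs: the segment with many short teeth approximates three halves of the length of the segment.
-/

set_option autoImplicit false
open MeasureTheory Set Topology Filter
open scoped ENNReal

namespace Pool.Agent.V11111.RN

/-- The tooth over `j / N`, without its base point. -/
noncomputable def tooth (N : ℕ) (j : ℕ) : Set Plane :=
  ver ((j : ℝ) / N) '' Ioc 0 (1 / (2 * N))

/-- The closed tooth. -/
noncomputable def ctooth (N : ℕ) (j : ℕ) : Set Plane :=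
  ver ((j : ℝ) / N) '' Icc 0 (1 / (2 * N))

/-- The comb. -/
noncomputable def comb (N : ℕ) : Set Plane := S0 ∪ ⋃ j ∈ Finset.range N, ctooth N j

/-- All teeth. -/
noncomputable def teeth (N : ℕ) : Set Plane := ⋃ j ∈ Finset.range N, tooth N j

theorem tooth_meas (N j : ℕ) : MeasurableSet (tooth N j) :=
  (iso_ver _).isClosedEmbedding.measurableEmbedding.measurableSet_image.2 measurableSet_Ioc

theorem teeth_meas (N : ℕ) : MeasurableSet (teeth N) :=
  Finset.measurableSet_biUnion _ fun j _ => tooth_meas N j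

theorem ver_zero (c : ℝ) : ver c 0 = hor c := rfl

theorem frac_mem {N j : ℕ} (hj : j < N) : ((j : ℝ) / N) ∈ Icc (0 : ℝ) 1 := by
  have hN : (0 : ℝ) < N := by exact_mod_cast (Nat.zero_lt_of_lt hj)
  refine ⟨by positivity, ?_⟩
  rw [div_le_one hN]
  exact_mod_cast hj.le

theorem comb_eq (N : ℕ) : comb N = S0 ∪ teeth N := by
  apply Subset.antisymm
  · apply union_subset subset_union_left
    intro x hx
    simp only [mem_iUnion, Finset.mem_range] at hx
    obtain ⟨j, hj, y, hy, rfl⟩ := hx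
    rcases hy.1.eq_or_lt with h | h
    · left
      rw [← h, ver_zero]
      exact ⟨_, frac_mem hj, rfl⟩
    · right
      simp only [teeth, mem_iUnion, Finset.mem_range]
      exact ⟨j, hj, y, ⟨h, hy.2⟩, rfl⟩
  · apply union_subset subset_union_left
    intro x hx
    right
    simp only [teeth, mem_iUnion, Finset.mem_range] at hx ⊢
    obtain ⟨j, hj, y, hy, rfl⟩ := hx
    exact ⟨j, hj, y, ⟨hy.1.le, hy.2⟩, rfl⟩

theorem comb_closed (N : ℕ) : IsClosed (comb N) := by
  apply S0_compact.isClosed.union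
  apply isClosed_biUnion_finset
  intro j _
  exact (isCompact_Icc.image (iso_ver _).continuous).isClosed

theorem comb_connected (N : ℕ) : IsConnected (comb N) := by
  have h0 : IsConnected S0 := (isConnected_Icc zero_le_one).image _ iso_hor.continuous.continuousOn
  have h1 : comb N = ⋃ j : Option (Finset.range N),
      (match j with | none => S0 | some j => S0 ∪ ctooth N j) := by
    ext x
    simp only [comb, mem_union, mem_iUnion, Option.exists, Subtype.exists, Finset.mem_range]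
    constructor
    · rintro (h | ⟨j, hj, h⟩)
      · exact Or.inl h
      · exact Or.inr ⟨j, hj, Or.inr h⟩
    · rintro (h | ⟨j, hj, h | h⟩)
      · exact Or.inl h
      · exact Or.inl h
      · exact Or.inr ⟨j, hj, h⟩
  have hne : (hor 0) ∈ S0 := ⟨0, by simp, rfl⟩
  refine ⟨⟨hor 0, Or.inl hne⟩, ?_⟩
  rw [h1]
  apply isPreconnected_iUnion ⟨hor 0, ?_⟩
  · intro j
    rcases j with _ | j
    · exact h0.isPreconnected
    · have hc : IsPreconnected (ctooth N j) :=
        isPreconnected_Icc.image _ (iso_ver _).continuous.continuousOn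
      apply IsPreconnected.union (ver ((j : ℝ) / N) 0) _ _ h0.isPreconnected hc
      · rw [ver_zero]
        exact ⟨_, frac_mem (Finset.mem_range.1 j.2), rfl⟩
      · exact ⟨0, by simp, rfl⟩
  · simp only [mem_iInter]
    intro j
    rcases j with _ | j
    · exact hne
    · exact Or.inl hne

theorem disj (N : ℕ) : Disjoint S0 (teeth N) := by
  rw [disjoint_left]
  intro x hx hx'
  obtain ⟨t, _, rfl⟩ := hx
  simp only [teeth, mem_iUnion, Finset.mem_range] at hx'
  obtain ⟨j, _, y, hy, h⟩ := hx'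
  have h1 := congrArg (fun v : Plane => v 1) h
  simp [ver, hor] at h1
  exact absurd h1 hy.1.ne'

theorem disj_tooth {N : ℕ} (hN : 0 < N) : (↑(Finset.range N) : Set ℕ).PairwiseDisjoint (tooth N) := by
  intro i _ j _ hij
  show Disjoint (tooth N i) (tooth N j)
  rw [disjoint_left]
  intro x hx hx'
  obtain ⟨y, _, rfl⟩ := hx
  obtain ⟨z, _, h⟩ := hx'
  have h1 := congrArg pr h
  rw [pr_ver, pr_ver] at h1
  have hN' : (N : ℝ) ≠ 0 := by exact_mod_cast hN.ne'
  rw [div_left_inj' hN'] at h1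
  exact hij (by exact_mod_cast h1.symm)

theorem tooth_haus (N j : ℕ) : μH[1] (tooth N j) = ENNReal.ofReal (1 / (2 * N)) := by
  rw [tooth, haus_image (iso_ver _)]; simp

theorem teeth_haus {N : ℕ} (hN : 0 < N) : μH[1] (teeth N) = ENNReal.ofReal (1 / 2) := by
  rw [teeth, measure_biUnion_finset (disj_tooth hN) fun j _ => tooth_meas N j]
  simp_rw [tooth_haus]
  rw [Finset.sum_const, Finset.card_range, nsmul_eq_mul, ← ENNReal.ofReal_natCast,
    ← ENNReal.ofReal_mul (by positivity)]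
  congr 1
  have : (N : ℝ) ≠ 0 := by exact_mod_cast hN.ne'
  field_simp

theorem comb_haus {N : ℕ} (hN : 0 < N) : μH[1] (comb N) = ENNReal.ofReal (3 / 2) := by
  rw [comb_eq, measure_union (disj N) (teeth_meas N), S0_haus, teeth_haus hN,
    ← ENNReal.ofReal_one, ← ENNReal.ofReal_add zero_le_one (by norm_num)]
  norm_num

theorem comb_norm {N : ℕ} {x : Plane} (hx : x ∈ comb N) : ‖x‖ ≤ 3 := by
  rcases hx with ⟨t, ht, rfl⟩ | hx
  · rw [norm_hor, abs_of_nonneg ht.1]; linarith [ht.2]
  · simp only [mem_iUnion, Finset.mem_range] at hx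
    obtain ⟨j, hj, y, hy, rfl⟩ := hx
    have h1 := frac_mem hj
    have h2 := norm_ver ((j : ℝ) / N) y
    rw [abs_of_nonneg h1.1, abs_of_nonneg hy.1] at h2
    have h3 : (1 : ℝ) / (2 * N) ≤ 1 := by
      have hN : (1 : ℝ) ≤ N := by exact_mod_cast (Nat.one_le_of_lt hj)
      rw [div_le_one (by positivity)]; linarith
    linarith [h1.2, hy.2]

/-- The error on one tooth. -/
theorem tooth_err {φ : Plane → ℝ} (hφ : Continuous φ) {N j : ℕ} (hj : j < N) {δ ρ : ℝ}
    (hδ : 0 ≤ δ)
    (hN : 1 / (N : ℝ) < ρ) (hmod : ∀ x y : Plane, ‖x‖ ≤ 3 → ‖y‖ ≤ 3 → dist x y < ρ →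
      |φ x - φ y| ≤ δ) :
    |(∫ x in tooth N j, φ x ∂μH[1]) - 1 / 2 * ∫ t in ((j : ℝ) / N)..(((j + 1 : ℕ) : ℝ) / N), φ (hor t)|
      ≤ δ / N := by
  have hN0 : (0 : ℝ) < N := by exact_mod_cast (Nat.zero_lt_of_lt hj)
  have hN1 : (1 : ℝ) ≤ N := by exact_mod_cast (Nat.one_le_of_lt hj)
  set c := (j : ℝ) / N with hc
  have hcm := frac_mem hj
  have hle : c ≤ ((j + 1 : ℕ) : ℝ) / N := by rw [hc]; gcongr; simp
  have hlen : ((j + 1 : ℕ) : ℝ) / N - c = 1 / N := by rw [hc]; push_cast; field_simp; ring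
  have hle1 : ((j + 1 : ℕ) : ℝ) / N ≤ 1 := by
    rw [div_le_one hN0]; exact_mod_cast hj
  have h1 : ∫ x in tooth N j, φ x ∂μH[1] = ∫ y in (0 : ℝ)..(1 / (2 * N)), φ (ver c y) := by
    rw [tooth, integral_image (iso_ver _) measurableSet_Ioc,
      intervalIntegral.integral_of_le (by positivity)]
  have hcv : Continuous fun y : ℝ => φ (ver c y) := hφ.comp (iso_ver c).continuous
  have hch : Continuous fun y : ℝ => φ (hor y) := hφ.comp iso_hor.continuous
  have hhalf : (1 : ℝ) / (2 * N) = 1 / 2 * (1 / N) := by field_simp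
  have hhalf1 : (1 : ℝ) / (2 * N) ≤ 1 / N := by
    rw [hhalf]; have : (0:ℝ) < 1 / N := by positivity
    linarith
  have hN2 : (1 : ℝ) / N ≤ 1 := by rw [div_le_one hN0]; exact hN1
  have e1 : |(∫ y in (0 : ℝ)..(1 / (2 * N)), φ (ver c y)) - (1 / (2 * N)) * φ (hor c)| ≤
      δ * (1 / (2 * N)) := by
    have h2 : (∫ y in (0 : ℝ)..(1 / (2 * N)), φ (ver c y)) - (1 / (2 * N)) * φ (hor c) =
        ∫ y in (0 : ℝ)..(1 / (2 * N)), (φ (ver c y) - φ (hor c)) := by
      rw [intervalIntegral.integral_sub (hcv.intervalIntegrable _ _) intervalIntegrable_const,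
        intervalIntegral.integral_const]
      simp
    rw [h2]
    have h3 := intervalIntegral.norm_integral_le_of_norm_le_const (a := 0) (b := 1 / (2 * N))
      (f := fun y => φ (ver c y) - φ (hor c)) (C := δ) (fun y hy => by
        rw [uIoc_of_le (by positivity)] at hy
        rw [Real.norm_eq_abs]
        apply hmod
        · have := norm_ver c y
          rw [abs_of_nonneg hcm.1, abs_of_nonneg hy.1.le] at this
          linarith [hcm.2, hy.2]
        · rw [norm_hor, abs_of_nonneg hcm.1]; linarith [hcm.2]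
        · rw [← ver_zero, dist_ver, sub_zero, abs_of_nonneg hy.1.le]
          linarith [hy.2])
    rw [sub_zero, abs_of_nonneg (by positivity : (0:ℝ) ≤ 1 / (2 * N))] at h3
    exact h3
  have e2 : |(∫ t in c..(((j + 1 : ℕ) : ℝ) / N), φ (hor t)) - (1 / N) * φ (hor c)| ≤
      δ * (1 / N) := by
    have h2 : (∫ t in c..(((j + 1 : ℕ) : ℝ) / N), φ (hor t)) - (1 / N) * φ (hor c) =
        ∫ t in c..(((j + 1 : ℕ) : ℝ) / N), (φ (hor t) - φ (hor c)) := by
      rw [intervalIntegral.integral_sub (hch.intervalIntegrable _ _) intervalIntegrable_const,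
        intervalIntegral.integral_const, hlen]
      simp
    rw [h2]
    have h3 := intervalIntegral.norm_integral_le_of_norm_le_const (a := c)
      (b := ((j + 1 : ℕ) : ℝ) / N)
      (f := fun y => φ (hor y) - φ (hor c)) (C := δ) (fun y hy => by
        rw [uIoc_of_le hle] at hy
        rw [Real.norm_eq_abs]
        apply hmod
        · rw [norm_hor, abs_of_nonneg (hcm.1.trans hy.1.le)]; linarith [hy.2]
        · rw [norm_hor, abs_of_nonneg hcm.1]; linarith [hcm.2]
        · rw [dist_hor, abs_of_nonneg (by linarith [hy.1])]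
          linarith [hy.2])
    rw [hlen, abs_of_nonneg (by positivity : (0:ℝ) ≤ 1 / N)] at h3
    exact h3
  rw [h1]
  rw [abs_le] at e1 e2 ⊢
  have e3 : δ / N = δ * (1 / N) := by ring
  have e4 : δ * (1 / (2 * N)) = 1 / 2 * (δ * (1 / N)) := by rw [hhalf]; ring
  have e5 : (1 / (2 * (N : ℝ))) * φ (hor c) = 1 / 2 * ((1 / N) * φ (hor c)) := by rw [hhalf]; ring
  rw [e3]
  rw [e4, e5] at e1
  constructor <;> linarith [e1.1, e1.2, e2.1, e2.2]

/-- The integral over the comb. -/
theorem comb_err {φ : Plane → ℝ} (hφ : Continuous φ) {N : ℕ} (hN0 : 0 < N) {δ ρ : ℝ}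
    (hδ : 0 ≤ δ)
    (hN : 1 / (N : ℝ) < ρ) (hmod : ∀ x y : Plane, ‖x‖ ≤ 3 → ‖y‖ ≤ 3 → dist x y < ρ →
      |φ x - φ y| ≤ δ) :
    |(∫ x in comb N, φ x ∂μH[1]) - ∫ x, φ x ∂(ENNReal.ofReal (3 / 2) •
      (μH[1] : Measure Plane).restrict S0)| ≤ δ := by
  have hN0' : (0 : ℝ) < N := by exact_mod_cast hN0
  have hch : Continuous fun y : ℝ => φ (hor y) := hφ.comp iso_hor.continuous
  have hI0 : ∫ x in S0, φ x ∂μH[1] = ∫ t in (0 : ℝ)..1, φ (hor t) := by
    rw [S0, integral_image iso_hor measurableSet_Icc, intervalIntegral.integral_of_le zero_le_one,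
      integral_Icc_eq_integral_Ioc]
  have hfinc : μH[1] (comb N) ≠ ⊤ := by rw [comb_haus hN0]; exact ENNReal.ofReal_ne_top
  obtain ⟨C, hC⟩ := (isCompact_closedBall (0 : Plane) 3).exists_bound_of_continuousOn
    hφ.continuousOn
  have hintc : IntegrableOn φ (comb N) μH[1] := by
    have : IsFiniteMeasure ((μH[1] : Measure Plane).restrict (comb N)) :=
      ⟨by rw [Measure.restrict_apply_univ]; exact lt_top_iff_ne_top.2 hfinc⟩
    refine Integrable.mono' (integrable_const C) hφ.aestronglyMeasurable ?_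
    filter_upwards [ae_restrict_mem (comb_closed N).measurableSet] with x hx
    apply hC
    rw [Metric.mem_closedBall, dist_zero_right]
    exact comb_norm hx
  have hsub : S0 ⊆ comb N := subset_union_left
  have hsubt : teeth N ⊆ comb N := by rw [comb_eq]; exact subset_union_right
  have h1 : ∫ x in comb N, φ x ∂μH[1] =
      (∫ t in (0 : ℝ)..1, φ (hor t)) + ∑ j ∈ Finset.range N, ∫ x in tooth N j, φ x ∂μH[1] := by
    rw [comb_eq, setIntegral_union (disj N) (teeth_meas N) (hintc.mono_set hsub)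
      (hintc.mono_set hsubt), hI0]
    congr 1
    rw [teeth, integral_biUnion_finset _ (fun j _ => tooth_meas N j) (disj_tooth hN0)]
    intro j hj
    apply hintc.mono_set
    refine Subset.trans ?_ hsubt
    intro x hx
    simp only [teeth, mem_iUnion]
    exact ⟨j, hj, hx⟩
  have h2 : ∫ t in (0 : ℝ)..1, φ (hor t) =
      ∑ j ∈ Finset.range N, ∫ t in ((j : ℝ) / N)..(((j + 1 : ℕ) : ℝ) / N), φ (hor t) := by
    rw [intervalIntegral.sum_integral_adjacent_intervals (a := fun j : ℕ => (j : ℝ) / N)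
      fun k _ => hch.intervalIntegrable _ _]
    simp [div_self hN0'.ne']
  have h3 : ∫ x, φ x ∂(ENNReal.ofReal (3 / 2) • (μH[1] : Measure Plane).restrict S0) =
      3 / 2 * ∫ t in (0 : ℝ)..1, φ (hor t) := by
    rw [integral_smul_measure, ENNReal.toReal_ofReal (by norm_num), hI0, smul_eq_mul]
  rw [h1, h3]
  have h4 : ((∫ t in (0 : ℝ)..1, φ (hor t)) + ∑ j ∈ Finset.range N, ∫ x in tooth N j, φ x ∂μH[1])
      - 3 / 2 * ∫ t in (0 : ℝ)..1, φ (hor t) =
      ∑ j ∈ Finset.range N, ((∫ x in tooth N j, φ x ∂μH[1]) -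
        1 / 2 * ∫ t in ((j : ℝ) / N)..(((j + 1 : ℕ) : ℝ) / N), φ (hor t)) := by
    rw [Finset.sum_sub_distrib, ← Finset.mul_sum, ← h2]; ring
  rw [h4]
  calc |∑ j ∈ Finset.range N, ((∫ x in tooth N j, φ x ∂μH[1]) -
        1 / 2 * ∫ t in ((j : ℝ) / N)..(((j + 1 : ℕ) : ℝ) / N), φ (hor t))|
      ≤ ∑ j ∈ Finset.range N, |(∫ x in tooth N j, φ x ∂μH[1]) -
        1 / 2 * ∫ t in ((j : ℝ) / N)..(((j + 1 : ℕ) : ℝ) / N), φ (hor t)| :=
        Finset.abs_sum_le_sum_abs _ _
    _ ≤ ∑ _j ∈ Finset.range N, δ / N :=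
        Finset.sum_le_sum fun j hj => tooth_err hφ (Finset.mem_range.1 hj) hδ hN hmod
    _ = δ := by
        rw [Finset.sum_const, Finset.card_range, nsmul_eq_mul]
        field_simp

/-- Three halves of the length of the segment is a relaxed network. -/
theorem relaxed {R : ℝ} (hR : 3 < R) :
    ENNReal.ofReal (3 / 2) • (μH[1] : Measure Plane).restrict S0 ∈
      Relaxed (Metric.ball 0 R) (3 / 2) := by
  have hS0R : S0 ⊆ Metric.ball 0 R := by
    rintro x ⟨t, ht, rfl⟩
    rw [Metric.mem_ball, dist_zero_right, norm_hor, abs_of_nonneg ht.1]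
    linarith [ht.2]
  refine ⟨?_, ?_, ?_⟩
  · have : IsFiniteMeasure ((μH[1] : Measure Plane).restrict S0) :=
      ⟨by rw [Measure.restrict_apply_univ, S0_haus]; exact ENNReal.one_lt_top⟩
    exact Measure.smul_finite _ ENNReal.ofReal_ne_top
  · rw [Measure.smul_apply, Measure.restrict_apply isClosed_closure.measurableSet.compl]
    have : (closure (Metric.ball (0 : Plane) R))ᶜ ∩ S0 = ∅ := by
      ext x
      simp only [mem_inter_iff, mem_compl_iff, mem_empty_iff_false, iff_false, not_and]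
      intro h1 h2
      exact h1 (subset_closure (hS0R h2))
    rw [this]; simp
  · intro k φ hφ ε hε
    have hmod : ∀ i : Fin k, ∃ ρ > 0, ∀ x y : Plane, ‖x‖ ≤ 3 → ‖y‖ ≤ 3 → dist x y < ρ →
        |φ i x - φ i y| ≤ ε / 2 := by
      intro i
      have hu := (isCompact_closedBall (0 : Plane) 3).uniformContinuousOn_of_continuous
        (hφ i).continuousOn
      rw [Metric.uniformContinuousOn_iff] at hu
      obtain ⟨ρ, hρ, h⟩ := hu (ε / 2) (by positivity)
      refine ⟨ρ, hρ, fun x y hx hy hxy => ?_⟩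
      have := h x (by simpa using hx) y (by simpa using hy) hxy
      rw [Real.dist_eq] at this
      exact this.le
    choose ρ hρ hmod using hmod
    obtain ⟨ρ₀, hρ₀, hρ₀'⟩ : ∃ ρ₀ > 0, ∀ i, ρ₀ ≤ ρ i := by
      rcases Nat.eq_zero_or_pos k with hk | hk
      · subst hk
        exact ⟨1, one_pos, fun i => i.elim0⟩
      · have : Nonempty (Fin k) := ⟨⟨0, hk⟩⟩
        obtain ⟨i₀, hi₀⟩ := Finite.exists_min ρ
        exact ⟨ρ i₀, hρ i₀, hi₀⟩
    obtain ⟨N, hN⟩ := exists_nat_one_div_lt hρ₀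
    have hN' : 1 / ((N + 1 : ℕ) : ℝ) < ρ₀ := by push_cast; exact hN
    refine ⟨comb (N + 1), ⟨comb_closed _, comb_connected _, ?_, ?_⟩, fun i => ?_⟩
    · intro x hx
      rw [Metric.mem_ball, dist_zero_right]
      exact lt_of_le_of_lt (comb_norm hx) hR
    · rw [comb_haus (Nat.succ_pos N)]
    · refine lt_of_le_of_lt (comb_err (hφ i) (Nat.succ_pos N) (by positivity)
        (lt_of_lt_of_le hN' (hρ₀' i)) (hmod i)) (by linarith)

end Pool.Agent.V11111.RN
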