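import Pool.Agent.V11111.RN.Upper
import Pool.Agent.V11111.RN.Comb

/-!
The gap between the network problem and its relaxation.
-/

set_option autoImplicit false
open MeasureTheory Set Topology Filter
open scoped ENNReal ContDiff

namespace Pool.Agent.V11111.RN

theorem S0_Dom : S0 ⊆ Dom := by
  rintro x ⟨t, ht, rfl⟩
  show hor t ∈ Metric.ball 0 10
  rw [Metric.mem_ball, dist_zero_right, norm_hor, abs_of_nonneg ht.1]
  linarith [ht.2]

theorem fp_real {t : ℝ} (ht : t ≠ 1) : fp.real {hor t} = 0 := by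
  rw [measureReal_def, fp, Measure.dirac_apply' _ (measurableSet_singleton _)]
  have : hor 1 ∉ ({hor t} : Set Plane) := by
    intro h
    have h1 := congrArg pr (mem_singleton_iff.1 h)
    rw [pr_hor, pr_hor] at h1
    exact ht h1.symm
  simp [this]

theorem fm_real (k : ℕ) : 0 < fm.real {hor (q k)} := by
  rw [measureReal_def]
  apply ENNReal.toReal_pos _ (measure_ne_top _ _)
  rw [fm, Measure.add_apply, Measure.smul_apply, Measure.smul_apply]
  have h1 : 0 < ENNReal.ofReal (1 / 100) • kap {hor (q k)} := by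
    rw [smul_eq_mul]
    exact ENNReal.mul_pos (ENNReal.ofReal_pos.2 (by norm_num)).ne' (kap_atom k).ne'
  exact (lt_of_lt_of_le h1 le_add_self).ne'

/-- The load forces the segment to be contained in the network. -/
theorem forced {m : ℝ} {S : Set Plane} (hS : IsClosed S) (h : ¬ S0 ⊆ S) :
    energy Dom m fp fm ((μH[1] : Measure Plane).restrict S) = ⊥ := by
  obtain ⟨x, hx, hxS⟩ := not_subset.1 h
  obtain ⟨t, ht, rfl⟩ := hx
  have hopen : IsOpen {s : ℝ | hor s ∉ S} := hS.isOpen_compl.preimage iso_hor.continuous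
  obtain ⟨s, hs, hs1, hsS⟩ : ∃ s ∈ Icc (0 : ℝ) 1, s ≠ 1 ∧ hor s ∉ S := by
    by_cases h1 : t = 1
    · subst h1
      have h2 : ∀ᶠ s in 𝓝[<] (1 : ℝ), hor s ∉ S :=
        mem_nhdsWithin_of_mem_nhds (hopen.mem_nhds hxS)
      have h3 : ∀ᶠ s in 𝓝[<] (1 : ℝ), s ∈ Ioo (0 : ℝ) 1 := Ioo_mem_nhdsLT zero_lt_one
      obtain ⟨s, hs, hs'⟩ := (h2.and h3).exists
      exact ⟨s, ⟨hs'.1.le, hs'.2.le⟩, hs'.2.ne, hs⟩
    · exact ⟨t, ht, h1, hxS⟩
  have hW : IsOpen {s : Icc (0 : ℝ) 1 | hor (s : ℝ) ∉ S ∧ (s : ℝ) ≠ 1} := by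
    apply IsOpen.inter
    · exact hopen.preimage continuous_subtype_val
    · exact isOpen_ne.preimage continuous_subtype_val
  obtain ⟨k, hk⟩ := (TopologicalSpace.denseRange_denseSeq (Icc (0 : ℝ) 1)).exists_mem_open hW
    ⟨⟨s, hs⟩, hsS, hs1⟩
  have hk1 : q k ≠ 1 := hk.2
  apply energy_bot (p := hor (q k)) Metric.isOpen_ball hS (S0_Dom ⟨q k, q_mem k, rfl⟩) hk.1
  rw [fp_real hk1]
  exact (fm_real k).ne

/-- The gap. -/
theorem gap : ∃ m : ℝ, 0 < m ∧
    (∃ S ∈ Network Dom (3 / 2), ⊥ < energy Dom m fp fm ((μH[1] : Measure Plane).restrict S)) ∧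
    (⨆ S ∈ Network Dom (3 / 2), energy Dom m fp fm ((μH[1] : Measure Plane).restrict S)) <
      energy Dom m fp fm (ENNReal.ofReal (3 / 2) • (μH[1] : Measure Plane).restrict S0) := by
  obtain ⟨B, hB0, hB⟩ := eta_bound
  set m : ℝ := 50 * ((volume : Measure Plane).real Dom * (1 + 10 * B) ^ 2) + 1 with hm
  have hv : 0 ≤ (volume : Measure Plane).real Dom := measureReal_nonneg
  have hm0 : 0 < m := by positivity
  have hbig : (volume : Measure Plane).real Dom * (1 + 10 * B) ^ 2 ≤ m / 50 := by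
    rw [hm]; linarith
  refine ⟨m, hm0, ?_, ?_⟩
  · refine ⟨S0, ⟨S0_compact.isClosed, ?_, S0_Dom, ?_⟩, ?_⟩
    · exact (isConnected_Icc zero_le_one).image _ iso_hor.continuous.continuousOn
    · rw [S0_haus, ← ENNReal.ofReal_one]
      exact ENNReal.ofReal_le_ofReal (by norm_num)
    · have h1 : ((-(1 / (2 * m * 1)) : ℝ) : EReal) ≤
          energy Dom m fp fm ((μH[1] : Measure Plane).restrict S0) := by
        apply le_iInf₂
        intro u hu
        rw [EReal.coe_le_coe_iff]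
        have := lower (Ω := Dom) S0_Dom hm0 one_pos hu
        rwa [ENNReal.ofReal_one, one_smul] at this
      exact lt_of_lt_of_le (EReal.bot_lt_coe _) h1
  · have h1 : ((-(1 / (2 * m * (3 / 2))) : ℝ) : EReal) ≤
          energy Dom m fp fm (ENNReal.ofReal (3 / 2) • (μH[1] : Measure Plane).restrict S0) := by
        apply le_iInf₂
        intro u hu
        rw [EReal.coe_le_coe_iff]
        exact lower (Ω := Dom) S0_Dom hm0 (by norm_num) hu
    have h2 : (⨆ S ∈ Network Dom (3 / 2),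
        energy Dom m fp fm ((μH[1] : Measure Plane).restrict S)) ≤
        ((-(35 / 100) / m : ℝ) : EReal) := by
      apply iSup₂_le
      intro S hS
      by_cases h : S0 ⊆ S
      · exact upper hB0 hB hm0 hbig hS h
      · rw [forced hS.1 h]; exact bot_le
    refine lt_of_le_of_lt h2 (lt_of_lt_of_le ?_ h1)
    rw [EReal.coe_lt_coe_iff]
    have h3 : -(1 / (2 * m * (3 / 2))) = (-(1 / 3)) / m := by field_simp
    rw [h3]
    apply div_lt_div_of_pos_right _ hm0
    norm_num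

/-- The main theorem. -/
theorem main : ∃ (m : ℝ) (f₁ f₂ μ : Measure Plane), 0 < m ∧
    IsFiniteMeasure f₁ ∧ IsFiniteMeasure f₂ ∧
    f₁ (Metric.ball (0 : Plane) 10)ᶜ = 0 ∧ f₂ (Metric.ball (0 : Plane) 10)ᶜ = 0 ∧
    (∃ S ∈ Network (Metric.ball 0 10) (3 / 2),
      ⊥ < energy (Metric.ball 0 10) m f₁ f₂ ((μH[1] : Measure Plane).restrict S)) ∧
    μ ∈ Relaxed (Metric.ball 0 10) (3 / 2) ∧
    (⨆ S ∈ Network (Metric.ball 0 10) (3 / 2),
        energy (Metric.ball 0 10) m f₁ f₂ ((μH[1] : Measure Plane).restrict S)) <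
      energy (Metric.ball 0 10) m f₁ f₂ μ ∧
    ¬ ∃ S : ℕ → Set Plane, (∀ n, S n ∈ Network (Metric.ball 0 10) (3 / 2)) ∧
      (∀ φ : Plane → ℝ, Continuous φ →
        Tendsto (fun n => ∫ x in S n, φ x ∂μH[1]) atTop (𝓝 (∫ x, φ x ∂μ))) ∧
      Tendsto (fun n => energy (Metric.ball 0 10) m f₁ f₂ ((μH[1] : Measure Plane).restrict (S n)))
        atTop (𝓝 (energy (Metric.ball 0 10) m f₁ f₂ μ)) := by
  obtain ⟨m, hm, hS, hgap⟩ := gap
  refine ⟨m, fp, fm, ENNReal.ofReal (3 / 2) • (μH[1] : Measure Plane).restrict S0, hm,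
    inferInstance, inferInstance, ?_, ?_, hS, relaxed (by norm_num), hgap, ?_⟩
  · rw [fp, Measure.dirac_apply' _ Metric.isOpen_ball.measurableSet.compl]
    have : hor 1 ∉ (Metric.ball (0 : Plane) 10)ᶜ := fun h => h (S0_Dom ⟨1, by simp, rfl⟩)
    simp [this]
  · rw [fm, Measure.add_apply, Measure.smul_apply, Measure.smul_apply,
      Measure.dirac_apply' _ Metric.isOpen_ball.measurableSet.compl]
    have : hor 0 ∉ (Metric.ball (0 : Plane) 10)ᶜ := fun h => h (S0_Dom ⟨0, by simp, rfl⟩)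
    have h2 : kap (Metric.ball (0 : Plane) 10)ᶜ = 0 :=
      measure_mono_null (compl_subset_compl.2 S0_Dom) kap_S0
    rw [h2]
    simp [this]
  · rintro ⟨S, hSn, -, hlim⟩
    have h1 : energy (Metric.ball 0 10) m fp fm
        (ENNReal.ofReal (3 / 2) • (μH[1] : Measure Plane).restrict S0) ≤
        ⨆ S ∈ Network (Metric.ball 0 10) (3 / 2),
          energy (Metric.ball 0 10) m fp fm ((μH[1] : Measure Plane).restrict S) := by
      apply le_of_tendsto hlim
      exact Eventually.of_forall fun n => le_iSup₂ (f := fun S (_ : S ∈ Network (Metric.ball 0 10)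
        (3 / 2)) => energy (Metric.ball 0 10) m fp fm ((μH[1] : Measure Plane).restrict S))
        (S n) (hSn n)
    exact absurd hgap (not_lt.2 h1)

end Pool.Agent.V11111.RN
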