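import Pool.Agent.V11111.RN.Defs

/-!
Segments in the plane and the one-dimensional Hausdorff measure.
-/

set_option autoImplicit false
open MeasureTheory Set Topology Filter
open scoped ENNReal ContDiff

namespace Pool.Agent.V11111.RN

/-- The horizontal axis. -/
noncomputable def hor (x : ℝ) : Plane := !₂[x, 0]

/-- The vertical line over `c`. -/
noncomputable def ver (c : ℝ) (y : ℝ) : Plane := !₂[c, y]

/-- The first coordinate. -/
noncomputable def pr : Plane →L[ℝ] ℝ := EuclideanSpace.proj (0 : Fin 2)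

theorem pr_apply (x : Plane) : pr x = x 0 := rfl

@[simp] theorem pr_hor (x : ℝ) : pr (hor x) = x := by simp [pr_apply, hor]

@[simp] theorem pr_ver (c y : ℝ) : pr (ver c y) = c := by simp [pr_apply, ver]

theorem dist_hor (x y : ℝ) : dist (hor x) (hor y) = |x - y| := by
  rw [EuclideanSpace.dist_eq]
  simp [hor, Real.dist_eq, Real.sqrt_sq_eq_abs]

theorem dist_ver (c x y : ℝ) : dist (ver c x) (ver c y) = |x - y| := by
  rw [EuclideanSpace.dist_eq]
  simp [ver, Real.dist_eq, Real.sqrt_sq_eq_abs]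

theorem iso_hor : Isometry hor := Isometry.of_dist_eq fun x y => by
  rw [dist_hor, Real.dist_eq]

theorem iso_ver (c : ℝ) : Isometry (ver c) := Isometry.of_dist_eq fun x y => by
  rw [dist_ver, Real.dist_eq]

theorem abs_pr_le (x : Plane) : |pr x| ≤ ‖x‖ := by
  rw [pr_apply, EuclideanSpace.norm_eq, ← Real.sqrt_sq_eq_abs]
  apply Real.sqrt_le_sqrt
  simp [Fin.sum_univ_two]
  positivity

theorem norm_pr : ‖pr‖ ≤ 1 :=
  ContinuousLinearMap.opNorm_le_bound _ zero_le_one fun x => by
    rw [Real.norm_eq_abs, one_mul]; exact abs_pr_le x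

theorem lip_pr : LipschitzWith 1 pr := by
  have := pr.lipschitz
  refine this.weaken ?_
  rw [← NNReal.coe_le_coe]
  simpa using norm_pr

/-- The Hausdorff measure on an isometric image of the line. -/
theorem restrict_image {i : ℝ → Plane} (hi : Isometry i) {A : Set ℝ} (hA : MeasurableSet A) :
    (μH[1] : Measure Plane).restrict (i '' A) = (volume.restrict A).map i := by
  have h0 : MeasurableEmbedding i := hi.isClosedEmbedding.measurableEmbedding
  have h1 := hi.map_hausdorffMeasure (d := 1) (Or.inl zero_le_one)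
  rw [hausdorffMeasure_real] at h1
  have h2 : (i '' A) = (i '' A) ∩ range i := by
    rw [eq_comm, inter_eq_left]; exact image_subset_range _ _
  have h3 : (μH[1] : Measure Plane).restrict (i '' A)
      = ((μH[1] : Measure Plane).restrict (range i)).restrict (i '' A) := by
    rw [Measure.restrict_restrict (h0.measurableSet_image.2 hA), ← h2]
  rw [h3, ← h1, h0.restrict_map, preimage_image_eq _ hi.injective]

theorem haus_image {i : ℝ → Plane} (hi : Isometry i) (A : Set ℝ) :
    μH[1] (i '' A) = volume A := by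
  rw [hi.hausdorffMeasure_image (Or.inl zero_le_one), hausdorffMeasure_real]

theorem integral_image {i : ℝ → Plane} (hi : Isometry i) {A : Set ℝ} (hA : MeasurableSet A)
    (φ : Plane → ℝ) : ∫ x in i '' A, φ x ∂μH[1] = ∫ t in A, φ (i t) := by
  rw [restrict_image hi hA, hi.isClosedEmbedding.measurableEmbedding.integral_map]

/-- The unit segment. -/
noncomputable def S0 : Set Plane := hor '' Icc 0 1

theorem S0_compact : IsCompact S0 := isCompact_Icc.image iso_hor.continuous

theorem S0_meas : MeasurableSet S0 := S0_compact.isClosed.measurableSet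

theorem S0_haus : μH[1] S0 = 1 := by
  rw [S0, haus_image iso_hor]; simp

theorem norm_hor (x : ℝ) : ‖hor x‖ = |x| := by
  have := dist_hor x 0
  have h0 : hor 0 = 0 := by ext i; fin_cases i <;> simp [hor]
  rw [h0, dist_zero_right] at this
  simpa using this

theorem norm_ver (c y : ℝ) : ‖ver c y‖ ≤ |c| + |y| := by
  have h1 := dist_ver c y 0
  have h2 : ver c 0 = hor c := rfl
  calc ‖ver c y‖ = dist (ver c y) 0 := (dist_zero_right _).symm
    _ ≤ dist (ver c y) (ver c 0) + dist (ver c 0) 0 := dist_triangle _ _ _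
    _ = |y| + |c| := by rw [h1, h2, dist_zero_right, norm_hor]; simp
    _ = |c| + |y| := add_comm _ _

/-- A connected set containing the segment with little additional length stays close to it. -/
theorem near {S : Set Plane} (hc : IsConnected S) (h0 : S0 ⊆ S)
    (hS : μH[1] S ≤ ENNReal.ofReal (3 / 2)) {x : Plane} (hx : x ∈ S) : ‖x‖ ≤ 2 := by
  set d : Plane → ℝ := fun y => Metric.infDist y S0 with hd
  have hlip : LipschitzWith 1 d := Metric.lipschitz_infDist_pt S0
  have hne : S0.Nonempty := ⟨hor 0, 0, by simp, rfl⟩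
  have hp0 : hor 0 ∈ S0 := ⟨0, by simp, rfl⟩
  have himg : IsPreconnected (d '' S) := hc.isPreconnected.image d hlip.continuous.continuousOn
  have hIcc : Icc 0 (d x) ⊆ d '' S := by
    apply himg.Icc_subset
    · exact ⟨hor 0, h0 hp0, Metric.infDist_zero_of_mem hp0⟩
    · exact ⟨x, hx, rfl⟩
  have hIoc : Ioc 0 (d x) ⊆ d '' (S \ S0) := by
    intro t ht
    obtain ⟨y, hy, rfl⟩ := hIcc ⟨ht.1.le, ht.2⟩
    refine ⟨y, ⟨hy, fun hy0 => ?_⟩, rfl⟩
    have : d y = 0 := Metric.infDist_zero_of_mem hy0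
    rw [this] at ht
    exact lt_irrefl _ ht.1
  have hdiff : μH[1] (S \ S0) ≤ ENNReal.ofReal (1 / 2) := by
    have h1 : μH[1] (S \ S0) = μH[1] S - μH[1] S0 :=
      measure_sdiff h0 S0_meas.nullMeasurableSet (by rw [S0_haus]; exact ENNReal.one_ne_top)
    rw [h1, S0_haus]
    calc μH[1] S - 1 ≤ ENNReal.ofReal (3 / 2) - 1 := tsub_le_tsub_right hS _
      _ = ENNReal.ofReal (1 / 2) := by
        rw [← ENNReal.ofReal_one, ← ENNReal.ofReal_sub _ zero_le_one]; norm_num
  have h2 : ENNReal.ofReal (d x) ≤ ENNReal.ofReal (1 / 2) := by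
    calc ENNReal.ofReal (d x) = volume (Ioc 0 (d x)) := by simp
      _ ≤ volume (d '' (S \ S0)) := measure_mono hIoc
      _ = μH[1] (d '' (S \ S0)) := by rw [hausdorffMeasure_real]
      _ ≤ μH[1] (S \ S0) := by
        have := hlip.hausdorffMeasure_image_le zero_le_one (S \ S0)
        simpa using this
      _ ≤ _ := hdiff
  have h3 : d x ≤ 1 / 2 := (ENNReal.ofReal_le_ofReal_iff (by norm_num)).1 h2
  obtain ⟨y, hy, hxy⟩ := (Metric.infDist_lt_iff hne).1 (lt_of_le_of_lt h3 (by norm_num : (1:ℝ)/2 < 1))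
  obtain ⟨t, ht, rfl⟩ := hy
  calc ‖x‖ = dist x 0 := (dist_zero_right _).symm
    _ ≤ dist x (hor t) + dist (hor t) 0 := dist_triangle _ _ _
    _ ≤ 1 + 1 := by
      rw [dist_zero_right, norm_hor, abs_of_nonneg ht.1]
      exact add_le_add hxy.le ht.2
    _ = 2 := by norm_num

theorem diff_le {S : Set Plane} (h0 : S0 ⊆ S)
    (hS : μH[1] S ≤ ENNReal.ofReal (3 / 2)) : μH[1] (S \ S0) ≤ ENNReal.ofReal (1 / 2) := by
  have h1 : μH[1] (S \ S0) = μH[1] S - μH[1] S0 :=
    measure_sdiff h0 S0_meas.nullMeasurableSet (by rw [S0_haus]; exact ENNReal.one_ne_top)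
  rw [h1, S0_haus]
  calc μH[1] S - 1 ≤ ENNReal.ofReal (3 / 2) - 1 := tsub_le_tsub_right hS _
    _ = ENNReal.ofReal (1 / 2) := by
      rw [← ENNReal.ofReal_one, ← ENNReal.ofReal_sub _ zero_le_one]; norm_num

end Pool.Agent.V11111.RN
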