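import Pool.Agent.V11111.RN.Lower

/-!
Points have capacity zero in the plane: atoms of the load outside the network make the energy
infinite.
-/

set_option autoImplicit false
open MeasureTheory Set Topology Filter
open scoped ENNReal ContDiff

namespace Pool.Agent.V11111.RN

theorem exists_deriv_bound :
    ∃ C : ℝ, 0 ≤ C ∧ ∀ t, |deriv Real.smoothTransition t| ≤ C := by
  have hc : Continuous (deriv Real.smoothTransition) :=
    (Real.smoothTransition.contDiff (n := 1)).continuous_deriv (by norm_num)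
  obtain ⟨C, hC⟩ := (isCompact_Icc (a := (0:ℝ)) (b := 1)).exists_bound_of_continuousOn
    hc.continuousOn
  refine ⟨max C 0, le_max_right _ _, fun t => ?_⟩
  rcases lt_or_ge t 0 with h | h
  · have : Real.smoothTransition =ᶠ[𝓝 t] fun _ => 0 := by
      filter_upwards [Iio_mem_nhds h] with s hs
      exact Real.smoothTransition.zero_of_nonpos hs.le
    rw [this.deriv_eq]; simp
  rcases lt_or_ge 1 t with h1 | h1
  · have : Real.smoothTransition =ᶠ[𝓝 t] fun _ => 1 := by
      filter_upwards [Ioi_mem_nhds h1] with s hs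
      exact Real.smoothTransition.one_of_one_le (le_of_lt hs)
    rw [this.deriv_eq]; simp
  · exact (hC t ⟨h, h1⟩).trans (le_max_left _ _)

/-- The logarithmic cut-off function. -/
noncomputable def phi (p : Plane) (r : ℝ) (N : ℕ) (x : Plane) : ℝ :=
  Real.smoothTransition
    ((Real.log (r ^ 2) - Real.log (‖x - p‖ ^ 2 + r ^ 2 * Real.exp (-(2 * N)))) / N - 1)

variable {p : Plane} {r : ℝ} {N : ℕ}

theorem phi_nonneg (x : Plane) : 0 ≤ phi p r N x := Real.smoothTransition.nonneg _

theorem phi_le_one (x : Plane) : phi p r N x ≤ 1 := Real.smoothTransition.le_one _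

theorem pos_aux (hr : 0 < r) (x : Plane) :
    0 < ‖x - p‖ ^ 2 + r ^ 2 * Real.exp (-(2 * (N : ℝ))) := by positivity

theorem phi_self (hr : 0 < r) (hN : 0 < N) : phi p r N p = 1 := by
  unfold phi
  apply Real.smoothTransition.one_of_one_le
  have hN' : (0 : ℝ) < N := by exact_mod_cast hN
  have e : ‖p - p‖ ^ 2 + r ^ 2 * Real.exp (-(2 * (N:ℝ))) = r ^ 2 * Real.exp (-(2 * (N:ℝ))) := by
    rw [sub_self, norm_zero]; ring
  rw [e, Real.log_mul (by positivity) (by positivity), Real.log_exp]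
  field_simp
  ring_nf
  norm_num

theorem phi_zero (hr : 0 < r) (hN : 0 < N) {x : Plane}
    (hx : r ^ 2 * Real.exp (-(N : ℝ)) ≤ ‖x - p‖ ^ 2) : phi p r N x = 0 := by
  unfold phi
  apply Real.smoothTransition.zero_of_nonpos
  have hN' : (0 : ℝ) < N := by exact_mod_cast hN
  have h1 : Real.log (r ^ 2 * Real.exp (-(N : ℝ))) ≤
      Real.log (‖x - p‖ ^ 2 + r ^ 2 * Real.exp (-(2 * (N : ℝ)))) :=
    Real.log_le_log (by positivity) (by
      have : 0 ≤ r ^ 2 * Real.exp (-(2 * (N : ℝ))) := by positivity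
      linarith)
  rw [Real.log_mul (by positivity) (by positivity), Real.log_exp] at h1
  have h2 : Real.log (r ^ 2) - Real.log (‖x - p‖ ^ 2 + r ^ 2 * Real.exp (-(2 * (N : ℝ)))) ≤ N := by
    linarith
  have h3 : (Real.log (r ^ 2) - Real.log (‖x - p‖ ^ 2 + r ^ 2 * Real.exp (-(2 * (N : ℝ))))) / N
      ≤ 1 := by
    rw [div_le_one hN']; exact h2
  linarith

theorem phi_zero' (hr : 0 < r) (hN : 0 < N) {x : Plane} (hx : r ≤ ‖x - p‖) :
    phi p r N x = 0 := by
  apply phi_zero hr hN
  have h1 : Real.exp (-(N : ℝ)) ≤ 1 := Real.exp_le_one_iff.2 (by simp)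
  calc r ^ 2 * Real.exp (-(N : ℝ)) ≤ r ^ 2 * 1 := by gcongr
    _ = r ^ 2 := mul_one _
    _ ≤ ‖x - p‖ ^ 2 := by gcongr

theorem phi_contDiff (hr : 0 < r) : ContDiff ℝ ∞ (phi p r N) := by
  unfold phi
  apply Real.smoothTransition.contDiff.comp
  apply ContDiff.sub _ contDiff_const
  apply ContDiff.div_const
  apply ContDiff.sub contDiff_const
  apply ContDiff.log
  · exact ((contDiff_id.sub contDiff_const).norm_sq ℝ).add contDiff_const
  · intro x; exact (pos_aux hr x).ne'

theorem phi_fderiv (hr : 0 < r) {C : ℝ} (hC0 : 0 ≤ C)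
    (hC : ∀ t, |deriv Real.smoothTransition t| ≤ C) (x : Plane) :
    ‖fderiv ℝ (phi p r N) x‖ ≤
      C * ((1 / N) * (2 * ‖x - p‖ / (‖x - p‖ ^ 2 + r ^ 2 * Real.exp (-(2 * (N : ℝ)))))) := by
  have h1 : HasFDerivAt (fun x : Plane => ‖x - p‖ ^ 2)
      (2 • (innerSL ℝ (x - p)).comp (ContinuousLinearMap.id ℝ Plane)) x :=
    ((hasFDerivAt_id x).sub_const p).norm_sq
  have h2 := (h1.add_const (r ^ 2 * Real.exp (-(2 * (N : ℝ))))).log (pos_aux hr x).ne'
  have h3 := ((h2.const_sub (Real.log (r ^ 2))).mul_const ((N : ℝ)⁻¹)).sub_const (1 : ℝ)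
  have h4 : HasDerivAt Real.smoothTransition
      (deriv Real.smoothTransition ((Real.log (r ^ 2) -
        Real.log (‖x - p‖ ^ 2 + r ^ 2 * Real.exp (-(2 * (N : ℝ))))) * (N : ℝ)⁻¹ - 1))
      ((Real.log (r ^ 2) -
        Real.log (‖x - p‖ ^ 2 + r ^ 2 * Real.exp (-(2 * (N : ℝ))))) * (N : ℝ)⁻¹ - 1) :=
    ((Real.smoothTransition.contDiff (n := 1)).differentiable (by norm_num)).differentiableAt.hasDerivAt
  have h5 := h4.comp_hasFDerivAt x h3
  have h6 : phi p r N = Real.smoothTransition ∘ fun x : Plane => (Real.log (r ^ 2) -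
        Real.log (‖x - p‖ ^ 2 + r ^ 2 * Real.exp (-(2 * (N : ℝ))))) * (N : ℝ)⁻¹ - 1 := by
    ext y; simp [phi, div_eq_mul_inv]
  rw [h6, h5.fderiv, norm_smul]
  apply mul_le_mul (hC _) _ (norm_nonneg _) hC0
  rw [norm_smul, norm_neg, norm_smul]
  have h7 : ‖(2 • (innerSL ℝ (x - p)).comp (ContinuousLinearMap.id ℝ Plane))‖ ≤ 2 * ‖x - p‖ := by
    refine ContinuousLinearMap.opNorm_le_bound _ (by positivity) fun y => ?_
    simp only [_root_.smul_apply, ContinuousLinearMap.comp_id, innerSL_apply_apply]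
    rw [nsmul_eq_mul, norm_mul]
    have := norm_inner_le_norm (𝕜 := ℝ) (x - p) y
    simp only [Nat.cast_ofNat, Real.norm_ofNat]
    nlinarith [norm_nonneg (x - p), norm_nonneg y]
  have h8 := pos_aux (N := N) (p := p) hr x
  rw [Real.norm_eq_abs, abs_of_nonneg (by positivity : (0:ℝ) ≤ (N : ℝ)⁻¹), Real.norm_eq_abs,
    abs_of_pos (by positivity), one_div, div_eq_inv_mul]
  gcongr

theorem fderiv_zero_of_far (hr : 0 < r) (hN : 0 < N) {x : Plane} (hx : r < ‖x - p‖) :
    fderiv ℝ (phi p r N) x = 0 := by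
  have : phi p r N =ᶠ[𝓝 x] fun _ => 0 := by
    have hopen : IsOpen {y : Plane | r < ‖y - p‖} :=
      isOpen_lt continuous_const (by fun_prop)
    filter_upwards [hopen.mem_nhds hx] with y hy
    exact phi_zero' hr hN (le_of_lt hy)
  rw [this.fderiv_eq]; simp

/-- The radial comparison function. -/
noncomputable def rad (r δ : ℝ) (y : ℝ) : ℝ := (Iic r).indicator (fun y => (y ^ 2 + δ)⁻¹) y

theorem rad_int {δ : ℝ} (hr : 0 < r) (hδ : 0 < δ) :
    ∫ x : Plane, rad r δ ‖x‖ =
      2 * ((volume : Measure Plane).real (Metric.ball 0 1) *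
        (1 / 2 * (Real.log (r ^ 2 + δ) - Real.log δ))) := by
  rw [integral_fun_norm_addHaar (volume : Measure Plane) (rad r δ)]
  have h0 : Module.finrank ℝ Plane = 2 := by simp
  rw [h0, nsmul_eq_mul, smul_eq_mul]
  congr 2
  have h1 : ∀ y : ℝ, y ^ (2 - 1) • rad r δ y = (Iic r).indicator (fun y => y * (y ^ 2 + δ)⁻¹) y := by
    intro y
    unfold rad
    by_cases h : y ∈ Iic r
    · simp [indicator_of_mem h]
    · simp [indicator_of_notMem h]
  simp_rw [h1]
  rw [setIntegral_indicator measurableSet_Iic, Ioi_inter_Iic, ← intervalIntegral.integral_of_le hr.le]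
  have h2 : ∀ y : ℝ, HasDerivAt (fun y : ℝ => 1 / 2 * Real.log (y ^ 2 + δ)) (y * (y ^ 2 + δ)⁻¹) y := by
    intro y
    have hp : 0 < y ^ 2 + δ := by positivity
    have h3 := (((hasDerivAt_pow 2 y).add_const δ).log hp.ne').const_mul (1 / 2 : ℝ)
    have h4 : y * (y ^ 2 + δ)⁻¹ = 1 / 2 * (((2 : ℕ) : ℝ) * y ^ (2 - 1) / (y ^ 2 + δ)) := by
      rw [div_eq_mul_inv]; norm_num; ring
    rw [h4]
    exact h3
  rw [intervalIntegral.integral_eq_sub_of_hasDerivAt (fun y _ => h2 y)]
  · simp; ring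
  · apply Continuous.intervalIntegrable
    apply continuous_id.mul
    apply Continuous.inv₀ (by fun_prop)
    intro y
    have hp : 0 < y ^ 2 + δ := by positivity
    exact hp.ne'

theorem rad_integrable {δ : ℝ} (hδ : 0 < δ) : Integrable fun x : Plane => rad r δ ‖x‖ := by
  have h1 : (fun x : Plane => rad r δ ‖x‖) =
      (Metric.closedBall (0 : Plane) r).indicator fun x => (‖x‖ ^ 2 + δ)⁻¹ := by
    ext x
    unfold rad
    by_cases h : ‖x‖ ≤ r
    · rw [indicator_of_mem (show ‖x‖ ∈ Iic r from h), indicator_of_mem (by simpa using h)]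
    · rw [indicator_of_notMem (show ‖x‖ ∉ Iic r from h), indicator_of_notMem (by simpa using h)]
  rw [h1, integrable_indicator_iff Metric.isClosed_closedBall.measurableSet]
  apply ContinuousOn.integrableOn_compact (isCompact_closedBall _ _)
  apply Continuous.continuousOn
  apply Continuous.inv₀ (by fun_prop)
  intro y
  have hp : 0 < ‖y‖ ^ 2 + δ := by positivity
  exact hp.ne'

/-- The Dirichlet energy of the cut-off functions. -/
theorem phi_energy (hr : 0 < r) (hN : 0 < N) {C : ℝ} (hC0 : 0 ≤ C)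
    (hC : ∀ t, |deriv Real.smoothTransition t| ≤ C) (Ω : Set Plane) :
    ∫ x in Ω, ‖fderiv ℝ (phi p r N) x‖ ^ 2 ≤
      (8 * C ^ 2 * (volume : Measure Plane).real (Metric.ball 0 1)) * ((N + 1) / N ^ 2) := by
  have hN' : (0 : ℝ) < N := by exact_mod_cast hN
  set δ := r ^ 2 * Real.exp (-(2 * (N : ℝ))) with hδ
  have hδ0 : 0 < δ := by positivity
  have h1 : ∀ x : Plane, ‖fderiv ℝ (phi p r N) x‖ ^ 2 ≤
      (4 * C ^ 2 / N ^ 2) * rad r δ ‖x - p‖ := by
    intro x
    by_cases hx : ‖x - p‖ ≤ r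
    · have h2 := phi_fderiv (p := p) (N := N) hr hC0 hC x
      rw [rad, indicator_of_mem (show ‖x - p‖ ∈ Iic r from hx)]
      have hp : 0 < ‖x - p‖ ^ 2 + δ := by positivity
      calc ‖fderiv ℝ (phi p r N) x‖ ^ 2
          ≤ (C * ((1 / N) * (2 * ‖x - p‖ / (‖x - p‖ ^ 2 + δ)))) ^ 2 := by gcongr
        _ = (4 * C ^ 2 / N ^ 2) * ((‖x - p‖ ^ 2) * ((‖x - p‖ ^ 2 + δ)⁻¹) ^ 2) := by
            field_simp; ring
        _ ≤ (4 * C ^ 2 / N ^ 2) * ((‖x - p‖ ^ 2 + δ) * ((‖x - p‖ ^ 2 + δ)⁻¹) ^ 2) := by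
            gcongr; linarith
        _ = _ := by field_simp
    · rw [fderiv_zero_of_far hr hN (not_le.1 hx)]
      have : 0 ≤ rad r δ ‖x - p‖ := by
        unfold rad
        apply indicator_nonneg
        intro y _; positivity
      rw [norm_zero]
      calc (0 : ℝ) ^ 2 = 0 := by norm_num
        _ ≤ _ := by positivity
  have hint : Integrable fun x : Plane => (4 * C ^ 2 / N ^ 2) * rad r δ ‖x - p‖ :=
    ((rad_integrable (r := r) hδ0).comp_sub_right p).const_mul _
  have h2 : ∫ x in Ω, ‖fderiv ℝ (phi p r N) x‖ ^ 2 ≤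
      ∫ x : Plane, (4 * C ^ 2 / N ^ 2) * rad r δ ‖x - p‖ := by
    calc ∫ x in Ω, ‖fderiv ℝ (phi p r N) x‖ ^ 2
        ≤ ∫ x, ‖fderiv ℝ (phi p r N) x‖ ^ 2 := by
          apply setIntegral_le_integral _ (ae_of_all _ fun x => by positivity)
          refine hint.mono' ?_ (ae_of_all _ fun x => ?_)
          · exact (((phi_contDiff hr).continuous_fderiv (by simp)).norm.pow 2).aestronglyMeasurable
          · rw [Real.norm_of_nonneg (sq_nonneg _)]; exact h1 x
      _ ≤ _ := by
          apply integral_mono _ hint h1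
          refine hint.mono' ?_ (ae_of_all _ fun x => ?_)
          · exact (((phi_contDiff hr).continuous_fderiv (by simp)).norm.pow 2).aestronglyMeasurable
          · rw [Real.norm_of_nonneg (sq_nonneg _)]; exact h1 x
  refine h2.trans ?_
  rw [integral_const_mul, integral_sub_right_eq_self (fun x : Plane => rad r δ ‖x‖) p,
    rad_int hr hδ0]
  have h3 : Real.log (r ^ 2 + δ) - Real.log δ ≤ 2 * (N + 1) := by
    have h4 : r ^ 2 + δ ≤ 2 * r ^ 2 := by
      have : Real.exp (-(2 * (N : ℝ))) ≤ 1 := Real.exp_le_one_iff.2 (by simp)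
      have : δ ≤ r ^ 2 * 1 := by rw [hδ]; gcongr
      linarith
    have h5 : Real.log (r ^ 2 + δ) ≤ Real.log (2 * r ^ 2) := Real.log_le_log (by positivity) h4
    rw [Real.log_mul (by norm_num) (by positivity)] at h5
    have h6 : Real.log δ = Real.log (r ^ 2) - 2 * N := by
      rw [hδ, Real.log_mul (by positivity) (by positivity), Real.log_exp]; ring
    have h7 : Real.log 2 ≤ 1 := by
      have := Real.log_two_lt_d9
      linarith
    linarith
  have hv : 0 ≤ (volume : Measure Plane).real (Metric.ball 0 1) := measureReal_nonneg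
  calc 4 * C ^ 2 / N ^ 2 * (2 * ((volume : Measure Plane).real (Metric.ball 0 1) *
        (1 / 2 * (Real.log (r ^ 2 + δ) - Real.log δ))))
      ≤ 4 * C ^ 2 / N ^ 2 * (2 * ((volume : Measure Plane).real (Metric.ball 0 1) *
        (1 / 2 * (2 * (N + 1))))) := by gcongr
    _ = _ := by field_simp; ring

/-- Smooth functions concentrated near a point with small Dirichlet energy, which converge to the
indicator of the point. -/
theorem phi_test {Ω : Set Plane} (hr : 0 < r) (hN : 0 < N)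
    (hΩ : Metric.closedBall p r ⊆ Ω) (t : ℝ) : (fun x => t * phi p r N x) ∈ Test Ω := by
  have hsupp : tsupport (fun x => t * phi p r N x) ⊆ Metric.closedBall p r := by
    apply closure_minimal _ Metric.isClosed_closedBall
    intro x hx
    by_contra h
    apply hx
    rw [Metric.mem_closedBall, dist_eq_norm, not_le] at h
    simp [phi_zero' hr hN h.le]
  refine ⟨contDiff_const.mul (phi_contDiff hr), ?_, hsupp.trans hΩ⟩
  exact (isCompact_closedBall p r).of_isClosed_subset (isClosed_tsupport _) hsupp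

theorem phi_tendsto (hr : 0 < r) (ν : Measure Plane) [IsFiniteMeasure ν] :
    Tendsto (fun N : ℕ => ∫ x, phi p r (N + 1) x ∂ν) atTop (𝓝 (ν.real {p})) := by
  have h1 : ν.real {p} = ∫ x, ({p} : Set Plane).indicator (fun _ => (1 : ℝ)) x ∂ν := by
    rw [integral_indicator (measurableSet_singleton p)]
    simp [measureReal_def]
  rw [h1]
  apply tendsto_integral_of_dominated_convergence (fun _ => (1 : ℝ))
  · intro N
    exact (phi_contDiff hr).continuous.aestronglyMeasurable
  · exact integrable_const _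
  · intro N
    refine ae_of_all _ fun x => ?_
    rw [Real.norm_of_nonneg (phi_nonneg x)]
    exact phi_le_one x
  · refine ae_of_all _ fun x => ?_
    by_cases hx : x = p
    · subst hx
      simp only [mem_singleton_iff, indicator_of_mem]
      apply tendsto_const_nhds.congr
      intro N
      rw [phi_self hr (Nat.succ_pos N)]
    · rw [indicator_of_notMem (by simpa using hx)]
      apply tendsto_const_nhds.congr'
      have hpos : 0 < ‖x - p‖ ^ 2 := by
        have : 0 < ‖x - p‖ := norm_pos_iff.2 (sub_ne_zero.2 hx)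
        positivity
      have h2 : Tendsto (fun N : ℕ => r ^ 2 * Real.exp (-((N + 1 : ℕ) : ℝ))) atTop (𝓝 (r ^ 2 * 0)) := by
        apply Tendsto.const_mul
        apply Real.tendsto_exp_neg_atTop_nhds_zero.comp
        exact (tendsto_natCast_atTop_atTop).comp (tendsto_add_atTop_nat 1)
      rw [mul_zero] at h2
      filter_upwards [h2.eventually (gt_mem_nhds hpos)] with N hN
      rw [phi_zero hr (Nat.succ_pos N) hN.le]

/-- Atoms of the load which do not belong to the network force the energy to be infinite. -/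
theorem energy_bot {Ω S : Set Plane} {m : ℝ} {f₁ f₂ : Measure Plane} [IsFiniteMeasure f₁]
    [IsFiniteMeasure f₂] (hΩ : IsOpen Ω) (hS : IsClosed S) {p : Plane} (hp : p ∈ Ω) (hpS : p ∉ S)
    (hf : f₁.real {p} ≠ f₂.real {p}) :
    energy Ω m f₁ f₂ ((μH[1] : Measure Plane).restrict S) = ⊥ := by
  obtain ⟨r, hr, hball⟩ : ∃ r > 0, Metric.closedBall p r ⊆ Ω ∩ Sᶜ :=
    Metric.nhds_basis_closedBall.mem_iff.1
      ((hΩ.inter hS.isOpen_compl).mem_nhds ⟨hp, hpS⟩)
  obtain ⟨C, hC0, hC⟩ := exists_deriv_bound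
  set V := 8 * C ^ 2 * (volume : Measure Plane).real (Metric.ball 0 1) with hV
  have hV0 : 0 ≤ V := by
    have : 0 ≤ (volume : Measure Plane).real (Metric.ball 0 1) := measureReal_nonneg
    positivity
  set d := f₁.real {p} - f₂.real {p} with hd
  have hd0 : d ≠ 0 := sub_ne_zero.2 hf
  -- the value of the functional
  have hval : ∀ (N : ℕ) (t : ℝ), functional Ω m f₁ f₂ ((μH[1] : Measure Plane).restrict S)
      (fun x => t * phi p r (N + 1) x) ≤ (1 / 2) * (t ^ 2 * (V * (((N + 1 : ℕ) + 1) / ((N + 1 : ℕ) : ℝ) ^ 2)))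
        - t * ((∫ x, phi p r (N + 1) x ∂f₁) - ∫ x, phi p r (N + 1) x ∂f₂) := by
    intro N t
    have hN : 0 < N + 1 := Nat.succ_pos N
    have hdf : Differentiable ℝ (phi p r (N + 1)) := (phi_contDiff hr).differentiable (by simp)
    have hfd : ∀ x, fderiv ℝ (fun x => t * phi p r (N + 1) x) x = t • fderiv ℝ (phi p r (N + 1)) x :=
      fun x => fderiv_const_mul (hdf x) t
    have hz : ∀ x ∈ S, fderiv ℝ (phi p r (N + 1)) x = 0 := by
      intro x hx
      apply fderiv_zero_of_far hr hN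
      by_contra h
      have : x ∈ Metric.closedBall p r := by
        rw [Metric.mem_closedBall, dist_eq_norm]; exact not_lt.1 h
      exact (hball this).2 hx
    unfold functional
    have e1 : ∫ x in Ω, ‖fderiv ℝ (fun x => t * phi p r (N + 1) x) x‖ ^ 2 =
        t ^ 2 * ∫ x in Ω, ‖fderiv ℝ (phi p r (N + 1)) x‖ ^ 2 := by
      rw [← integral_const_mul]
      congr 1
      ext x
      rw [hfd, norm_smul, mul_pow, Real.norm_eq_abs, sq_abs]
    have e2 : ∫ x in Ω, ‖fderiv ℝ (fun x => t * phi p r (N + 1) x) x‖ ^ 2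
        ∂((μH[1] : Measure Plane).restrict S) = 0 := by
      rw [Measure.restrict_restrict' hS.measurableSet]
      apply setIntegral_eq_zero_of_forall_eq_zero
      intro x hx
      rw [hfd, hz x hx.2]; simp
    rw [e1, e2, integral_const_mul, integral_const_mul]
    have h3 := phi_energy (p := p) hr hN hC0 hC Ω
    have h4 : t ^ 2 * ∫ x in Ω, ‖fderiv ℝ (phi p r (N + 1)) x‖ ^ 2 ≤
        t ^ 2 * (V * (((N + 1 : ℕ) + 1) / ((N + 1 : ℕ) : ℝ) ^ 2)) :=
      mul_le_mul_of_nonneg_left h3 (sq_nonneg t)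
    linarith
  have hlim : ∀ t : ℝ, Tendsto (fun N : ℕ => (1 / 2) * (t ^ 2 * (V * (((N + 1 : ℕ) + 1) / ((N + 1 : ℕ) : ℝ) ^ 2)))
        - t * ((∫ x, phi p r (N + 1) x ∂f₁) - ∫ x, phi p r (N + 1) x ∂f₂)) atTop
        (𝓝 ((1 / 2) * (t ^ 2 * (V * 0)) - t * (f₁.real {p} - f₂.real {p}))) := by
    intro t
    apply Tendsto.sub
    · apply Tendsto.const_mul
      apply Tendsto.const_mul
      apply Tendsto.const_mul
      have h5 : Tendsto (fun N : ℕ => ((N : ℝ) + 1) / (N : ℝ) ^ 2) atTop (𝓝 0) := by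
        have h6 : Tendsto (fun N : ℕ => 1 / (N : ℝ) + (1 / (N : ℝ)) * (1 / (N : ℝ))) atTop
            (𝓝 (0 + 0 * 0)) :=
          tendsto_one_div_atTop_nhds_zero_nat.add
            (tendsto_one_div_atTop_nhds_zero_nat.mul tendsto_one_div_atTop_nhds_zero_nat)
        rw [mul_zero, add_zero] at h6
        apply h6.congr'
        filter_upwards [eventually_gt_atTop 0] with N hN
        have : (0 : ℝ) < N := by exact_mod_cast hN
        field_simp
      exact h5.comp (tendsto_add_atTop_nat 1)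
    · apply Tendsto.const_mul
      exact (phi_tendsto hr f₁).sub (phi_tendsto hr f₂)
  rw [EReal.eq_bot_iff_forall_lt]
  intro y
  have hy := hlim ((1 - y) / d)
  have hy1 : (1 / 2) * (((1 - y) / d) ^ 2 * (V * 0)) - ((1 - y) / d) * (f₁.real {p} - f₂.real {p})
      < y := by
    rw [← hd, div_mul_cancel₀ _ hd0]; linarith
  obtain ⟨N, hN⟩ := (hy.eventually (gt_mem_nhds hy1)).exists
  have h7 : energy Ω m f₁ f₂ ((μH[1] : Measure Plane).restrict S) ≤
      ((functional Ω m f₁ f₂ ((μH[1] : Measure Plane).restrict S)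
        (fun x => ((1 - y) / d) * phi p r (N + 1) x) : ℝ) : EReal) :=
    iInf₂_le _ (phi_test hr (Nat.succ_pos N) (hball.trans inter_subset_left) _)
  refine lt_of_le_of_lt h7 ?_
  rw [EReal.coe_lt_coe_iff]
  exact lt_of_le_of_lt (hval N _) hN

end Pool.Agent.V11111.RN
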