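import Pool.Agent.V11111.RN.Base

/-!
The load and the lower bound for the energy of multiples of the length of the segment.
-/

set_option autoImplicit false
open MeasureTheory Set Topology Filter
open scoped ENNReal ContDiff

namespace Pool.Agent.V11111.RN

/-- A dense sequence of the unit interval. -/
noncomputable def q (k : ℕ) : ℝ := (TopologicalSpace.denseSeq (Icc (0 : ℝ) 1) k : ℝ)

theorem q_mem (k : ℕ) : q k ∈ Icc (0 : ℝ) 1 := (TopologicalSpace.denseSeq (Icc (0 : ℝ) 1) k).2

/-- A probability measure on the segment with a dense set of atoms. -/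
noncomputable def kap : Measure Plane :=
  Measure.sum fun k => ENNReal.ofReal ((1 / 2) ^ (k + 1)) • Measure.dirac (hor (q k))

theorem kap_univ : kap univ = 1 := by
  rw [kap, Measure.sum_apply _ MeasurableSet.univ]
  simp only [Measure.smul_apply, measure_univ, smul_eq_mul, mul_one]
  rw [← ENNReal.ofReal_tsum_of_nonneg (fun k => by positivity)]
  · have h := tsum_geometric_two
    have h1 : ∑' k : ℕ, ((1 : ℝ) / 2) ^ (k + 1) = 1 := by
      simp_rw [pow_succ]
      rw [tsum_mul_right, h]; norm_num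
    rw [h1]; simp
  · have h := summable_geometric_two
    simp_rw [pow_succ]
    exact h.mul_right _

instance kap_prob : IsProbabilityMeasure kap := ⟨kap_univ⟩

theorem kap_S0 : kap S0ᶜ = 0 := by
  rw [kap, Measure.sum_apply _ S0_meas.compl]
  simp only [Measure.smul_apply, smul_eq_mul]
  rw [ENNReal.tsum_eq_zero]
  intro k
  rw [Measure.dirac_apply' _ S0_meas.compl]
  have : hor (q k) ∉ S0ᶜ := fun h => h ⟨q k, q_mem k, rfl⟩
  simp [this]

theorem kap_atom (k : ℕ) : 0 < kap {hor (q k)} := by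
  rw [kap, Measure.sum_apply _ (measurableSet_singleton _)]
  refine lt_of_lt_of_le ?_ (ENNReal.le_tsum k)
  simp only [Measure.smul_apply, smul_eq_mul]
  rw [Measure.dirac_apply_of_mem (mem_singleton _), mul_one]
  exact ENNReal.ofReal_pos.2 (by positivity)

/-- The positive part of the load. -/
noncomputable def fp : Measure Plane := Measure.dirac (hor 1)

/-- The negative part of the load. -/
noncomputable def fm : Measure Plane :=
  ENNReal.ofReal (99 / 100) • Measure.dirac (hor 0) + ENNReal.ofReal (1 / 100) • kap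

instance fp_prob : IsProbabilityMeasure fp := by unfold fp; infer_instance

theorem fm_univ : fm univ = 1 := by
  rw [fm]
  simp only [Measure.add_apply, Measure.smul_apply, measure_univ, smul_eq_mul, mul_one]
  rw [← ENNReal.ofReal_add (by norm_num) (by norm_num)]
  norm_num

instance fm_prob : IsProbabilityMeasure fm := ⟨fm_univ⟩

theorem integral_fp (u : Plane → ℝ) : ∫ x, u x ∂fp = u (hor 1) := by
  rw [fp, integral_dirac]

theorem integrable_kap {u : Plane → ℝ} (hu : Continuous u) : Integrable u kap := by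
  have h1 : kap = kap.restrict S0 := by
    rw [Measure.restrict_eq_self_of_ae_mem]
    exact (mem_ae_iff.2 kap_S0)
  rw [h1]
  exact (hu.continuousOn.integrableOn_compact S0_compact)

theorem integral_fm {u : Plane → ℝ} (hu : Continuous u) :
    ∫ x, u x ∂fm = (99 / 100) * u (hor 0) + (1 / 100) * ∫ x, u x ∂kap := by
  rw [fm, integral_add_measure, integral_smul_measure, integral_smul_measure, integral_dirac]
  · rw [ENNReal.toReal_ofReal (by norm_num), ENNReal.toReal_ofReal (by norm_num)]
    simp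
  · refine Integrable.smul_measure ?_ ENNReal.ofReal_ne_top
    exact integrable_dirac (by simp)
  · exact (integrable_kap hu).smul_measure ENNReal.ofReal_ne_top

/-- The load paired with `u`. -/
theorem load_le {u : Plane → ℝ} (hu : Continuous u) {J : ℝ}
    (hJ : ∀ t ∈ Icc (0 : ℝ) 1, u (hor 1) - u (hor t) ≤ J) :
    (∫ x, u x ∂fp) - ∫ x, u x ∂fm ≤ J := by
  rw [integral_fp, integral_fm hu]
  have h1 : ∫ x, (u (hor 1) - J) ∂kap ≤ ∫ x, u x ∂kap := by
    apply integral_mono_ae (integrable_const _) (integrable_kap hu)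
    have : ∀ᵐ x ∂kap, x ∈ S0 := mem_ae_iff.2 kap_S0
    filter_upwards [this] with x hx
    obtain ⟨t, ht, rfl⟩ := hx
    linarith [hJ t ht]
  rw [integral_const] at h1
  simp only [probReal_univ, smul_eq_mul, one_mul] at h1
  have h2 := hJ 0 (by simp)
  linarith

theorem load_ge {u : Plane → ℝ} (hu : Continuous u) (h0 : u (hor 0) = 0)
    (hJ : ∀ t ∈ Icc (0 : ℝ) 1, u (hor t) ≤ u (hor 1)) :
    (99 / 100) * u (hor 1) ≤ (∫ x, u x ∂fp) - ∫ x, u x ∂fm := by
  rw [integral_fp, integral_fm hu, h0]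
  have h1 : ∫ x, u x ∂kap ≤ ∫ x, (u (hor 1)) ∂kap := by
    apply integral_mono_ae (integrable_kap hu) (integrable_const _)
    have : ∀ᵐ x ∂kap, x ∈ S0 := mem_ae_iff.2 kap_S0
    filter_upwards [this] with x hx
    obtain ⟨t, ht, rfl⟩ := hx
    exact hJ t ht
  rw [integral_const] at h1
  simp only [probReal_univ, smul_eq_mul, one_mul] at h1
  linarith

theorem hor_smul (s : ℝ) : hor s = s • hor 1 := by
  ext i; fin_cases i <;> simp [hor]

theorem hasDeriv_hor (s : ℝ) : HasDerivAt hor (hor 1) s := by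
  have h1 : hor = fun s : ℝ => s • hor 1 := funext hor_smul
  have h2 := (hasDerivAt_id s).smul_const (hor 1)
  simp only [id, one_smul] at h2
  rw [h1]
  simpa using h2

theorem diff_le_int {u : Plane → ℝ} (hu : ContDiff ℝ ∞ u) {t : ℝ} (ht : t ∈ Icc (0 : ℝ) 1) :
    u (hor 1) - u (hor t) ≤ ∫ s in (0 : ℝ)..1, ‖fderiv ℝ u (hor s)‖ := by
  have hdiff : Differentiable ℝ u := hu.differentiable (by simp)
  have hcf : Continuous (fderiv ℝ u) := hu.continuous_fderiv (by simp)
  have hch : Continuous hor := iso_hor.continuous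
  have hd : ∀ s : ℝ, HasDerivAt (fun s => u (hor s)) (fderiv ℝ u (hor s) (hor 1)) s := fun s =>
    (hdiff (hor s)).hasFDerivAt.comp_hasDerivAt s (hasDeriv_hor s)
  have hc1 : Continuous fun s : ℝ => fderiv ℝ u (hor s) (hor 1) :=
    (hcf.comp hch).clm_apply continuous_const
  have hc2 : Continuous fun s : ℝ => ‖fderiv ℝ u (hor s)‖ := (hcf.comp hch).norm
  have h1 : ∫ s in t..1, fderiv ℝ u (hor s) (hor 1) = u (hor 1) - u (hor t) :=
    intervalIntegral.integral_eq_sub_of_hasDerivAt (fun s _ => hd s)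
      (hc1.intervalIntegrable _ _)
  rw [← h1]
  calc ∫ s in t..1, fderiv ℝ u (hor s) (hor 1)
      ≤ ∫ s in t..1, ‖fderiv ℝ u (hor s)‖ := by
        apply intervalIntegral.integral_mono_on ht.2 (hc1.intervalIntegrable _ _)
          (hc2.intervalIntegrable _ _)
        intro s _
        calc fderiv ℝ u (hor s) (hor 1) ≤ ‖fderiv ℝ u (hor s) (hor 1)‖ := le_abs_self _
          _ ≤ ‖fderiv ℝ u (hor s)‖ * ‖hor 1‖ := ContinuousLinearMap.le_opNorm _ _
          _ = _ := by rw [norm_hor]; simp
    _ ≤ ∫ s in (0 : ℝ)..1, ‖fderiv ℝ u (hor s)‖ := by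
        have h2 := intervalIntegral.integral_add_adjacent_intervals
          (hc2.intervalIntegrable (μ := volume) 0 t) (hc2.intervalIntegrable (μ := volume) t 1)
        rw [← h2]
        have h3 : 0 ≤ ∫ s in (0 : ℝ)..t, ‖fderiv ℝ u (hor s)‖ :=
          intervalIntegral.integral_nonneg ht.1 fun s _ => norm_nonneg _
        linarith

/-- The lower bound for multiples of the length on the segment. -/
theorem lower {Ω : Set Plane} (hΩ : S0 ⊆ Ω) {m θ : ℝ} (hm : 0 < m) (hθ : 0 < θ)
    {u : Plane → ℝ} (hu : u ∈ Test Ω) :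
    -(1 / (2 * m * θ)) ≤ functional Ω m fp fm
      (ENNReal.ofReal θ • (μH[1] : Measure Plane).restrict S0) u := by
  have hsm : ContDiff ℝ ∞ u := hu.1
  have hcf : Continuous (fderiv ℝ u) := hsm.continuous_fderiv (by simp)
  have hch : Continuous hor := iso_hor.continuous
  have hc2 : Continuous fun s : ℝ => ‖fderiv ℝ u (hor s)‖ := (hcf.comp hch).norm
  have hc3 : Continuous fun s : ℝ => (m * θ / 2) * ‖fderiv ℝ u (hor s)‖ ^ 2 :=
    continuous_const.mul (hc2.pow 2)
  set J := ∫ s in (0 : ℝ)..1, ‖fderiv ℝ u (hor s)‖ with hJ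
  have h1 : (∫ x, u x ∂fp) - ∫ x, u x ∂fm ≤ J :=
    load_le hsm.continuous fun t ht => diff_le_int hsm ht
  have h2 : ∫ x in Ω, ‖fderiv ℝ u x‖ ^ 2
      ∂(ENNReal.ofReal θ • (μH[1] : Measure Plane).restrict S0)
      = θ * ∫ s in (0 : ℝ)..1, ‖fderiv ℝ u (hor s)‖ ^ 2 := by
    rw [Measure.restrict_smul, Measure.restrict_restrict' S0_meas, inter_eq_right.2 hΩ,
      integral_smul_measure, ENNReal.toReal_ofReal hθ.le, smul_eq_mul, S0,
      integral_image iso_hor measurableSet_Icc, intervalIntegral.integral_of_le zero_le_one,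
      integral_Icc_eq_integral_Ioc]
  have h3 : 0 ≤ ∫ x in Ω, ‖fderiv ℝ u x‖ ^ 2 := integral_nonneg fun x => by positivity
  have h4 : ∫ s in (0 : ℝ)..1, (-(1 / (2 * m * θ))) ≤
      ∫ s in (0 : ℝ)..1, ((m * θ / 2) * ‖fderiv ℝ u (hor s)‖ ^ 2 - ‖fderiv ℝ u (hor s)‖) := by
    apply intervalIntegral.integral_mono_on zero_le_one intervalIntegrable_const
    · exact (hc3.sub hc2).intervalIntegrable _ _
    · intro s _
      set a := ‖fderiv ℝ u (hor s)‖
      have h5 : 0 ≤ (m * θ / 2) * (a - 1 / (m * θ)) ^ 2 := by positivity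
      have h6 : (m * θ / 2) * (a - 1 / (m * θ)) ^ 2
          = (m * θ / 2) * a ^ 2 - a + 1 / (2 * m * θ) := by field_simp; ring
      linarith
  rw [intervalIntegral.integral_sub (hc3.intervalIntegrable _ _)
    (hc2.intervalIntegrable _ _), intervalIntegral.integral_const_mul,
    intervalIntegral.integral_const] at h4
  simp only [sub_zero, smul_eq_mul, one_mul] at h4
  rw [functional, h2]
  have h7 : m / 2 * (θ * ∫ s in (0 : ℝ)..1, ‖fderiv ℝ u (hor s)‖ ^ 2)
      = m * θ / 2 * ∫ s in (0 : ℝ)..1, ‖fderiv ℝ u (hor s)‖ ^ 2 := by ring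
  rw [h7]
  linarith

end Pool.Agent.V11111.RN
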