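import Pool.Agent.V11111.RN.Cap

/-!
The upper bound for the energy of networks which contain the segment.
-/

set_option autoImplicit false
open MeasureTheory Set Topology Filter
open scoped ENNReal ContDiff Manifold

namespace Pool.Agent.V11111.RN

/-- The domain. -/
def Dom : Set Plane := Metric.ball 0 10

/-- A large cut-off function. -/
noncomputable def eta : ContDiffBump (0 : Plane) where
  rIn := 5
  rOut := 9
  rIn_pos := by norm_num
  rIn_lt_rOut := by norm_num

theorem eta_one {x : Plane} (hx : ‖x‖ ≤ 5) : eta x = 1 := by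
  apply eta.one_of_mem_closedBall
  rw [Metric.mem_closedBall, dist_zero_right]
  exact hx

theorem eta_bound : ∃ B : ℝ, 0 ≤ B ∧ ∀ x, ‖fderiv ℝ (eta : Plane → ℝ) x‖ ≤ B := by
  have h1 : Continuous (fderiv ℝ (eta : Plane → ℝ)) :=
    (eta.contDiff (n := 1)).continuous_fderiv (by norm_num)
  obtain ⟨B, hB⟩ := (eta.hasCompactSupport.fderiv (𝕜 := ℝ)).exists_bound_of_continuous h1
  exact ⟨B, (norm_nonneg _).trans (hB 0), hB⟩

/-- The primitive. -/
noncomputable def prim (w : ℝ → ℝ) (s : ℝ) : ℝ := ∫ t in (0 : ℝ)..s, w t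

theorem prim_deriv {w : ℝ → ℝ} (hw : Continuous w) (s : ℝ) : HasDerivAt (prim w) (w s) s :=
  (hw.integral_hasStrictDerivAt 0 s).hasDerivAt

theorem prim_contDiff {w : ℝ → ℝ} (hw : ContDiff ℝ ∞ w) : ContDiff ℝ ∞ (prim w) := by
  rw [contDiff_infty_iff_deriv]
  refine ⟨fun s => (prim_deriv hw.continuous s).differentiableAt, ?_⟩
  have : deriv (prim w) = w := funext fun s => (prim_deriv hw.continuous s).deriv
  rw [this]; exact hw

theorem prim_abs {w : ℝ → ℝ} (hw0 : ∀ t, 0 ≤ w t) (hw1 : ∀ t, w t ≤ 1) (s : ℝ) :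
    |prim w s| ≤ |s| := by
  have := intervalIntegral.norm_integral_le_of_norm_le_const (a := 0) (b := s) (f := w) (C := 1)
    (fun t _ => by rw [Real.norm_of_nonneg (hw0 t)]; exact hw1 t)
  simpa [prim] using this

/-- The test function. -/
noncomputable def tf (m : ℝ) (w : ℝ → ℝ) (x : Plane) : ℝ := (1 / m * prim w (pr x)) * eta x

section
variable {m : ℝ} {w : ℝ → ℝ}

theorem tf_test (hw : ContDiff ℝ ∞ w) : tf m w ∈ Test Dom := by
  have hs : tsupport (tf m w) ⊆ Metric.closedBall 0 9 := by
    have h1 : tsupport (tf m w) ⊆ tsupport (eta : Plane → ℝ) :=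
      tsupport_mul_subset_right
    rw [eta.tsupport_eq] at h1
    exact h1
  refine ⟨?_, ?_, hs.trans (Metric.closedBall_subset_ball (by norm_num))⟩
  · exact (contDiff_const.mul ((prim_contDiff hw).comp pr.contDiff)).mul eta.contDiff
  · exact (isCompact_closedBall (0 : Plane) 9).of_isClosed_subset (isClosed_tsupport _) hs

theorem fderiv_prim (hw : Continuous w) (x : Plane) :
    HasFDerivAt (fun x : Plane => 1 / m * prim w (pr x)) ((1 / m * w (pr x)) • pr) x := by
  have h1 : HasFDerivAt (fun x : Plane => pr x) pr x := pr.hasFDerivAt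
  have h2 := (prim_deriv hw (pr x)).comp_hasFDerivAt x h1
  have h3 := h2.const_mul (1 / m)
  rw [smul_smul] at h3
  exact h3

theorem tf_fderiv_near (hm : 0 < m) (hw : Continuous w) (hw0 : ∀ t, 0 ≤ w t) {x : Plane}
    (hx : ‖x‖ < 5) : ‖fderiv ℝ (tf m w) x‖ ≤ 1 / m * w (pr x) := by
  have h1 : tf m w =ᶠ[𝓝 x] fun x : Plane => 1 / m * prim w (pr x) := by
    have hopen : IsOpen {y : Plane | ‖y‖ < 5} := isOpen_lt continuous_norm continuous_const
    filter_upwards [hopen.mem_nhds hx] with y hy
    rw [tf, eta_one (le_of_lt hy), mul_one]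
  rw [h1.fderiv_eq, (fderiv_prim hw x).fderiv, norm_smul, Real.norm_of_nonneg]
  · calc 1 / m * w (pr x) * ‖pr‖ ≤ 1 / m * w (pr x) * 1 := by
          apply mul_le_mul_of_nonneg_left norm_pr
          have := hw0 (pr x)
          positivity
      _ = _ := mul_one _
  · have := hw0 (pr x)
    positivity

theorem tf_fderiv_far (hm : 0 < m) (hw : Continuous w) (hw0 : ∀ t, 0 ≤ w t)
    (hw1 : ∀ t, w t ≤ 1) {B : ℝ} (hB0 : 0 ≤ B) (hB : ∀ x, ‖fderiv ℝ (eta : Plane → ℝ) x‖ ≤ B)
    {x : Plane} (hx : x ∈ Dom) : ‖fderiv ℝ (tf m w) x‖ ≤ (1 + 10 * B) / m := by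
  have hx' : ‖x‖ ≤ 10 := by
    have : x ∈ Metric.ball (0 : Plane) 10 := hx
    rw [Metric.mem_ball, dist_zero_right] at this
    exact this.le
  have h1 := fderiv_prim (m := m) hw x
  have h2 : HasFDerivAt (eta : Plane → ℝ) (fderiv ℝ (eta : Plane → ℝ) x) x :=
    ((eta.contDiff (n := 1)).differentiable (by norm_num) x).hasFDerivAt
  have h3 := h1.mul h2
  have h4 : fderiv ℝ (tf m w) x = (1 / m * prim w (pr x)) • fderiv ℝ (eta : Plane → ℝ) x +
      eta x • (1 / m * w (pr x)) • pr := h3.fderiv
  rw [h4]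
  have ha : |prim w (pr x)| ≤ 10 := (prim_abs hw0 hw1 _).trans ((abs_pr_le x).trans hx')
  calc ‖(1 / m * prim w (pr x)) • fderiv ℝ (eta : Plane → ℝ) x + eta x • (1 / m * w (pr x)) • pr‖
      ≤ ‖(1 / m * prim w (pr x)) • fderiv ℝ (eta : Plane → ℝ) x‖ +
        ‖eta x • (1 / m * w (pr x)) • pr‖ := norm_add_le _ _
    _ ≤ (1 / m * 10) * B + 1 * ((1 / m * 1) * 1) := by
        rw [norm_smul, norm_smul, norm_smul, norm_mul, norm_mul,
          Real.norm_of_nonneg (by positivity : (0:ℝ) ≤ 1 / m), Real.norm_eq_abs (prim w (pr x)),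
          Real.norm_of_nonneg (hw0 (pr x)), Real.norm_of_nonneg eta.nonneg]
        have e1 := hB x
        have e2 := hw1 (pr x)
        have e3 := hw0 (pr x)
        have e4 : eta x ≤ 1 := eta.le_one
        have e5 : 0 ≤ eta x := eta.nonneg
        have e6 := norm_pr
        gcongr
    _ = (1 + 10 * B) / m := by field_simp; ring

end

/-- The upper bound. -/
theorem upper {B : ℝ} (hB0 : 0 ≤ B) (hB : ∀ x, ‖fderiv ℝ (eta : Plane → ℝ) x‖ ≤ B) {m : ℝ}
    (hm : 0 < m) (hbig : (volume : Measure Plane).real Dom * (1 + 10 * B) ^ 2 ≤ m / 50)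
    {S : Set Plane} (hS : S ∈ Network Dom (3 / 2)) (h0 : S0 ⊆ S) :
    energy Dom m fp fm ((μH[1] : Measure Plane).restrict S) ≤ ((-(35 / 100) / m : ℝ) : EReal) := by
  obtain ⟨hScl, hScon, hSD, hSL⟩ := hS
  have hSm : MeasurableSet S := hScl.measurableSet
  have hdl := diff_le h0 hSL
  have hRm : MeasurableSet (S \ S0) := hSm.diff S0_meas
  set R : Set Plane := S \ S0 with hR
  -- an open set containing the projection
  have hproj : volume (pr '' R) < ENNReal.ofReal (51 / 100) := by
    calc volume (pr '' R) = μH[1] (pr '' R) := by rw [hausdorffMeasure_real]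
      _ ≤ μH[1] R := by
        have := lip_pr.hausdorffMeasure_image_le zero_le_one R
        simpa using this
      _ ≤ ENNReal.ofReal (1 / 2) := hdl
      _ < _ := (ENNReal.ofReal_lt_ofReal_iff (by norm_num)).2 (by norm_num)
  obtain ⟨O₁, hO₁, hO₁o, hO₁v⟩ := (pr '' R).exists_isOpen_lt_of_lt _ hproj
  set K : Set ℝ := Icc 0 1 \ O₁ with hK
  have hKc : IsClosed K := isClosed_Icc.sdiff hO₁o
  have hKv : 49 / 100 ≤ volume.real K := by
    have h1 : volume.real (Icc (0:ℝ) 1) ≤ volume.real K + volume.real O₁ := by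
      have h2 : Icc (0 : ℝ) 1 ⊆ K ∪ O₁ := by
        intro x hx
        by_cases h : x ∈ O₁
        · exact Or.inr h
        · exact Or.inl ⟨hx, h⟩
      have h3 : volume (K ∪ O₁) ≠ ⊤ := by
        apply ne_top_of_le_ne_top _ (measure_union_le K O₁)
        apply ENNReal.add_ne_top.2 ⟨_, ne_top_of_lt hO₁v⟩
        exact ne_top_of_le_ne_top (by simp) (measure_mono (sdiff_subset : K ⊆ Icc 0 1))
      exact (measureReal_mono h2 h3).trans (measureReal_union_le _ _)
    have h4 : volume.real O₁ ≤ 51 / 100 := by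
      rw [measureReal_def]
      apply ENNReal.toReal_le_of_le_ofReal (by norm_num)
      exact hO₁v.le
    have h5 : volume.real (Icc (0:ℝ) 1) = 1 := by simp
    rw [h5] at h1
    linarith
  -- the additional length over K vanishes
  set e : Measure ℝ := ((μH[1] : Measure Plane).restrict R).map pr with he
  have hfin : IsFiniteMeasure ((μH[1] : Measure Plane).restrict R) :=
    ⟨by rw [Measure.restrict_apply_univ]; exact lt_of_le_of_lt hdl ENNReal.ofReal_lt_top⟩
  have hpm : Measurable (pr : Plane → ℝ) := pr.continuous.measurable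
  have heK : e K = 0 := by
    rw [he, Measure.map_apply hpm hKc.measurableSet,
      Measure.restrict_apply (hpm hKc.measurableSet)]
    have : pr ⁻¹' K ∩ R = ∅ := by
      ext x
      simp only [mem_inter_iff, mem_preimage, mem_empty_iff_false, iff_false, not_and]
      intro h1 h2
      exact h1.2 (hO₁ ⟨x, h2, rfl⟩)
    rw [this]; simp
  have hefin : IsFiniteMeasure e := by rw [he]; infer_instance
  obtain ⟨O, hO, hOo, hOe⟩ := K.exists_isOpen_lt_of_lt (μ := e) (ENNReal.ofReal (1 / 100))
    (by rw [heK]; exact ENNReal.ofReal_pos.2 (by norm_num))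
  obtain ⟨χ₀, hχ0, hχ1, hχI⟩ := exists_contMDiffMap_zero_one_of_isClosed (n := (⊤ : ℕ∞))
    (𝓘(ℝ, ℝ)) (s := Oᶜ) (t := K) hOo.isClosed_compl hKc
    (disjoint_left.2 fun x hx hx' => hx (hO hx'))
  set χ : ℝ → ℝ := fun t => χ₀ t with hχ
  have hχs : ContDiff ℝ ∞ χ := χ₀.contMDiff.contDiff
  set w : ℝ → ℝ := fun s => (1 + χ s) / 2 with hw
  have hws : ContDiff ℝ ∞ w := (contDiff_const.add hχs).div_const 2
  have hwc : Continuous w := hws.continuous
  have hχc : Continuous χ := hχs.continuous
  have hw0 : ∀ t, 0 ≤ w t := fun t => by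
    have := (hχI t).1
    simp only [hw]; linarith
  have hw1 : ∀ t, w t ≤ 1 := fun t => by
    have := (hχI t).2
    simp only [hw]; linarith
  -- the integral of the cut-off function
  set X : ℝ := ∫ t in Icc (0 : ℝ) 1, χ t with hX
  have hXK : 49 / 100 ≤ X := by
    refine hKv.trans ?_
    have h1 : volume.real K = ∫ t in Icc (0 : ℝ) 1, K.indicator (fun _ => (1 : ℝ)) t := by
      rw [setIntegral_indicator hKc.measurableSet, inter_eq_right.2 sdiff_subset]
      simp
      rfl
    rw [h1, hX]
    apply integral_mono_ae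
    · exact (integrable_const (1 : ℝ)).indicator hKc.measurableSet
    · exact (hχc.continuousOn.integrableOn_compact isCompact_Icc)
    · refine ae_of_all _ fun t => ?_
      by_cases ht : t ∈ K
      · simp only [indicator_of_mem ht]
        have : χ t = 1 := hχ1 ht
        rw [this]
      · simp only [indicator_of_notMem ht]
        exact (hχI t).1
  have hw2 : ∀ t, w t ^ 2 ≤ 1 / 4 + 3 / 4 * χ t := fun t => by
    have h1 := (hχI t).1
    have h2 := (hχI t).2
    simp only [hw]
    have h3 : χ t ^ 2 ≤ χ t := by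
      have : χ t * χ t ≤ χ t * 1 := mul_le_mul_of_nonneg_left h2 h1
      nlinarith
    nlinarith
  -- the energy on the segment
  have hE0 : ∫ x in S0, w (pr x) ^ 2 ∂μH[1] ≤ 1 / 4 + 3 / 4 * X := by
    rw [S0, integral_image iso_hor measurableSet_Icc]
    simp only [pr_hor]
    have h1 : ∫ t in Icc (0 : ℝ) 1, w t ^ 2 ≤ ∫ t in Icc (0 : ℝ) 1, (1 / 4 + 3 / 4 * χ t) := by
      apply integral_mono_ae
      · exact ((hwc.pow 2).continuousOn.integrableOn_compact isCompact_Icc)
      · exact ((continuous_const.add (continuous_const.mul hχc)).continuousOn.integrableOn_compact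
          isCompact_Icc)
      · exact ae_of_all _ hw2
    refine h1.trans (le_of_eq ?_)
    rw [integral_add (integrable_const _), integral_const_mul]
    · simp [hX]
    · exact ((continuous_const.mul hχc).continuousOn.integrableOn_compact isCompact_Icc)
  have hE1 : ∫ x in R, w (pr x) ^ 2 ∂μH[1] ≤ 1 / 4 * (1 / 2) + 3 / 4 * (1 / 100) := by
    have hOm : MeasurableSet (pr ⁻¹' O) := hpm hOo.measurableSet
    have h1 : ∫ x in R, w (pr x) ^ 2 ∂μH[1] ≤
        ∫ x in R, (1 / 4 + (pr ⁻¹' O).indicator (fun _ => (3 / 4 : ℝ)) x) ∂μH[1] := by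
      apply integral_mono_ae
      · refine Integrable.mono' (integrable_const (1 : ℝ))
          ((hwc.comp pr.continuous).pow 2).aestronglyMeasurable (ae_of_all _ fun x => ?_)
        have a := hw0 (pr x)
        have b := hw1 (pr x)
        rw [Real.norm_of_nonneg (sq_nonneg _)]
        nlinarith
      · exact (integrable_const _).add ((integrable_const (3 / 4 : ℝ)).indicator hOm)
      · refine ae_of_all _ fun x => ?_
        by_cases hx : pr x ∈ O
        · simp only [indicator_of_mem (show x ∈ pr ⁻¹' O from hx)]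
          have a := hw0 (pr x)
          have b := hw1 (pr x)
          nlinarith
        · simp only [indicator_of_notMem (show x ∉ pr ⁻¹' O from hx)]
          have : χ (pr x) = 0 := hχ0 hx
          have h2 := hw2 (pr x)
          rw [this] at h2
          linarith
    refine h1.trans ?_
    rw [integral_add (integrable_const _) ((integrable_const (3 / 4 : ℝ)).indicator hOm),
      integral_indicator hOm, integral_const, setIntegral_const]
    have h3 : ((μH[1] : Measure Plane).restrict R).real univ ≤ 1 / 2 := by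
      rw [measureReal_def, Measure.restrict_apply_univ]
      exact ENNReal.toReal_le_of_le_ofReal (by norm_num) hdl
    have h4 : ((μH[1] : Measure Plane).restrict R).real (pr ⁻¹' O) ≤ 1 / 100 := by
      rw [measureReal_def]
      have : ((μH[1] : Measure Plane).restrict R) (pr ⁻¹' O) = e O := by
        rw [he, Measure.map_apply hpm hOo.measurableSet]
      rw [this]
      exact ENNReal.toReal_le_of_le_ofReal (by norm_num) hOe.le
    simp only [smul_eq_mul]
    linarith
  have hnorm : ∀ x ∈ S, ‖x‖ < 5 := fun x hx => lt_of_le_of_lt (near hScon h0 hSL hx) (by norm_num)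
  have hSfin : IsFiniteMeasure ((μH[1] : Measure Plane).restrict S) :=
    ⟨by rw [Measure.restrict_apply_univ]; exact lt_of_le_of_lt hSL ENNReal.ofReal_lt_top⟩
  have htc : Continuous fun x => ‖fderiv ℝ (tf m w) x‖ ^ 2 :=
    (((tf_test (m := m) hws).1.continuous_fderiv (by simp)).norm.pow 2)
  have hE : ∫ x in Dom, ‖fderiv ℝ (tf m w) x‖ ^ 2 ∂((μH[1] : Measure Plane).restrict S) ≤
      1 / m ^ 2 * (1 / 4 + 3 / 4 * X + (1 / 4 * (1 / 2) + 3 / 4 * (1 / 100))) := by
    rw [Measure.restrict_restrict' hSm, inter_eq_right.2 hSD]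
    have hint : Integrable (fun x => 1 / m ^ 2 * w (pr x) ^ 2) ((μH[1] : Measure Plane).restrict S) := by
      apply Integrable.const_mul
      refine Integrable.mono' (integrable_const (1 : ℝ))
          ((hwc.comp pr.continuous).pow 2).aestronglyMeasurable (ae_of_all _ fun x => ?_)
      have a := hw0 (pr x)
      have b := hw1 (pr x)
      rw [Real.norm_of_nonneg (sq_nonneg _)]
      nlinarith
    have h1 : ∫ x in S, ‖fderiv ℝ (tf m w) x‖ ^ 2 ∂μH[1] ≤
        ∫ x in S, 1 / m ^ 2 * w (pr x) ^ 2 ∂μH[1] := by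
      have hae : ∀ᵐ x ∂((μH[1] : Measure Plane).restrict S),
          ‖fderiv ℝ (tf m w) x‖ ^ 2 ≤ 1 / m ^ 2 * w (pr x) ^ 2 := by
        filter_upwards [ae_restrict_mem hSm] with x hx
        have h2 := tf_fderiv_near (m := m) hm hwc hw0 (hnorm x hx)
        calc ‖fderiv ℝ (tf m w) x‖ ^ 2 ≤ (1 / m * w (pr x)) ^ 2 := by gcongr
          _ = _ := by ring
      apply integral_mono_ae _ hint hae
      refine hint.mono' htc.aestronglyMeasurable ?_
      filter_upwards [hae] with x hx
      rw [Real.norm_of_nonneg (sq_nonneg _)]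
      exact hx
    refine h1.trans ?_
    rw [integral_const_mul]
    apply mul_le_mul_of_nonneg_left _ (by positivity)
    have h5 : S = S0 ∪ R := (union_sdiff_cancel h0).symm
    rw [h5, setIntegral_union disjoint_sdiff_right hRm]
    · exact add_le_add hE0 hE1
    · refine Integrable.mono' (g := fun _ => (1:ℝ)) ?_
          ((hwc.comp pr.continuous).pow 2).aestronglyMeasurable (ae_of_all _ fun x => ?_)
      · have : IsFiniteMeasure ((μH[1] : Measure Plane).restrict S0) :=
          ⟨by rw [Measure.restrict_apply_univ, S0_haus]; exact ENNReal.one_lt_top⟩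
        exact integrable_const _
      · have a := hw0 (pr x)
        have b := hw1 (pr x)
        rw [Real.norm_of_nonneg (sq_nonneg _)]
        nlinarith
    · refine Integrable.mono' (integrable_const (1 : ℝ))
          ((hwc.comp pr.continuous).pow 2).aestronglyMeasurable (ae_of_all _ fun x => ?_)
      have a := hw0 (pr x)
      have b := hw1 (pr x)
      rw [Real.norm_of_nonneg (sq_nonneg _)]
      nlinarith
  -- the bulk energy
  have hDfin : volume Dom ≠ ⊤ := Metric.isBounded_ball.measure_lt_top.ne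
  have hbulk : ∫ x in Dom, ‖fderiv ℝ (tf m w) x‖ ^ 2 ≤ 1 / (50 * m) := by
    have : IsFiniteMeasure ((volume : Measure Plane).restrict Dom) :=
      ⟨by rw [Measure.restrict_apply_univ]; exact lt_top_iff_ne_top.2 hDfin⟩
    have hDm : MeasurableSet Dom := Metric.isOpen_ball.measurableSet
    have hae : ∀ᵐ x ∂((volume : Measure Plane).restrict Dom),
        ‖fderiv ℝ (tf m w) x‖ ^ 2 ≤ ((1 + 10 * B) / m) ^ 2 := by
      filter_upwards [ae_restrict_mem hDm] with x hx
      have := tf_fderiv_far hm hwc hw0 hw1 hB0 hB hx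
      gcongr
    have h1 : ∫ x in Dom, ‖fderiv ℝ (tf m w) x‖ ^ 2 ≤ ∫ x in Dom, ((1 + 10 * B) / m) ^ 2 := by
      apply integral_mono_ae _ (integrable_const _) hae
      refine Integrable.mono' (integrable_const (((1 + 10 * B) / m) ^ 2))
        htc.aestronglyMeasurable ?_
      filter_upwards [hae] with x hx
      rw [Real.norm_of_nonneg (sq_nonneg _)]
      exact hx
    refine h1.trans ?_
    rw [setIntegral_const, smul_eq_mul]
    calc (volume : Measure Plane).real Dom * ((1 + 10 * B) / m) ^ 2
        = ((volume : Measure Plane).real Dom * (1 + 10 * B) ^ 2) / m ^ 2 := by ring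
      _ ≤ (m / 50) / m ^ 2 := by gcongr
      _ = 1 / (50 * m) := by field_simp
  -- the load
  have hload : (99 / 100) * (1 / m * (1 / 2 + 1 / 2 * X)) ≤
      (∫ x, tf m w x ∂fp) - ∫ x, tf m w x ∂fm := by
    have hval : ∀ t ∈ Icc (0 : ℝ) 1, tf m w (hor t) = 1 / m * prim w t := by
      intro t ht
      rw [tf, eta_one, pr_hor, mul_one]
      rw [norm_hor, abs_of_nonneg ht.1]
      linarith [ht.2]
    have h1 := hval 1 (by simp)
    have h2 : prim w 1 = 1 / 2 + 1 / 2 * X := by
      rw [prim, intervalIntegral.integral_of_le zero_le_one, ← integral_Icc_eq_integral_Ioc]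
      simp only [hw]
      have h3 : ∀ t : ℝ, (1 + χ t) / 2 = 1 / 2 + 1 / 2 * χ t := fun t => by ring
      simp_rw [h3]
      rw [integral_add (integrable_const _), integral_const_mul]
      · simp [hX]
      · exact ((continuous_const.mul hχc).continuousOn.integrableOn_compact isCompact_Icc)
    have h4 := load_ge (u := tf m w) (tf_test (m := m) hws).1.continuous
      (by rw [hval 0 (by simp), prim]; simp) (fun t ht => by
        rw [hval t ht, h1]
        apply mul_le_mul_of_nonneg_left _ (by positivity)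
        have h5 := intervalIntegral.integral_add_adjacent_intervals
          (hwc.intervalIntegrable (μ := volume) 0 t) (hwc.intervalIntegrable (μ := volume) t 1)
        rw [prim, prim, ← h5]
        have h6 : 0 ≤ ∫ s in t..1, w s := intervalIntegral.integral_nonneg ht.2 fun s _ => hw0 s
        linarith)
    rw [h1, h2] at h4
    exact h4
  have hfinal : functional Dom m fp fm ((μH[1] : Measure Plane).restrict S) (tf m w) ≤
      -(35 / 100) / m := by
    unfold functional
    have h1 : m / 2 * (∫ x in Dom, ‖fderiv ℝ (tf m w) x‖ ^ 2 ∂((μH[1] : Measure Plane).restrict S)) ≤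
        m / 2 * (1 / m ^ 2 * (1 / 4 + 3 / 4 * X + (1 / 4 * (1 / 2) + 3 / 4 * (1 / 100)))) :=
      mul_le_mul_of_nonneg_left hE (by positivity)
    have h2 : m / 2 * (1 / m ^ 2 * (1 / 4 + 3 / 4 * X + (1 / 4 * (1 / 2) + 3 / 4 * (1 / 100)))) =
        (1 / m) * (1 / 2 * (1 / 4 + 3 / 4 * X + (1 / 4 * (1 / 2) + 3 / 4 * (1 / 100)))) := by
      field_simp
    have h3 : 1 / 2 * (1 / (50 * m)) = (1 / m) * (1 / 100) := by field_simp; norm_num
    have h4 : (99 / 100) * (1 / m * (1 / 2 + 1 / 2 * X)) =
        (1 / m) * ((99 / 100) * (1 / 2 + 1 / 2 * X)) := by ring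
    have h5 : -(35 / 100) / m = (1 / m) * (-(35 / 100)) := by ring
    rw [h4] at hload
    have h6 : (1 / m) * (1 / 100 + (1 / 2 * (1 / 4 + 3 / 4 * X + (1 / 4 * (1 / 2) + 3 / 4 * (1 / 100))))
        - ((99 / 100) * (1 / 2 + 1 / 2 * X))) ≤ (1 / m) * (-(35 / 100)) := by
      apply mul_le_mul_of_nonneg_left _ (by positivity)
      linarith
    rw [h5]
    linarith
  refine (iInf₂_le (tf m w) (tf_test hws)).trans ?_
  rw [EReal.coe_le_coe_iff]
  exact hfinal

end Pool.Agent.V11111.RN
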